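import Mathlib
import Pool.Agent.SSF.St
import Pool.Agent.SNW.F1

/-!
# SSZ: one more sum in the groups `Z_2 × Z_2p` (MP_ec93d3_co, near-full case)

Architect helper97.  Aim (`St_FinZ`): in a noncyclic group of order `4 p`, `p ≥ 5` prime, a generating family of `t ≥ 10` nonzero elements, at most two of
them equal to `± x` for each `x`, with aperiodic set of sums, has at least `cf 2 t + 1` sums (`cf 2 t = 1 + (t + 1) ^ 2 / 4` is SSF.PR_all).

Definitions as in SSF/St.lean.  Every `St_X` is a statement, its proof is in the docstring.  A module `Pool/Agent/SSZ/X.lean` proves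
`thm_X : St_A → ... → St_X` with exactly the hypotheses listed as `from A, ...` in the docstring, in this order.  ALL OLDER FACTS ARE THEOREMS NOW:
`import Pool.Agent.SSF.Fin` and use `SSF.PR_all` (the lower bound for rank at most two), `SSF.all_X`, `SSF.all_GrF SSF.all_GRO`, `SSF.all_CCF` (see `engZ` below),
`SSE.all_X`, `SSC.all_X`, `SSC.mdr_X`, `SDG.all_X`, `SDG.all_main` directly (they are not hypotheses).
Notation in the docstrings: `N = |G|`, `l = |u|`, `X = FS u f`, `T = FS s f`, `i D = it D i`.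
No double quotes and do not use the tactic `convert`.
-/

set_option autoImplicit false

noncomputable section

open Finset Pool.Agent.Helper64.Rho Pool.Agent.SDG Pool.Agent.MDR Pool.Agent.SSC Pool.Agent.SSE Pool.Agent.SSF
open scoped Classical Pointwise

namespace Pool.Agent.SSZ

/-- the groups `Z_2 × Z_2p`, `p ≥ 5` prime -/
def ZV (G : Type) [AddCommGroup G] : Prop := ¬ IsAddCyclic G ∧ ∃ p : ℕ, p.Prime ∧ 5 ≤ p ∧ Nat.card G = 4 * p

/-- a generating family with at most `cf 2 t` sums -/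
def CtxZ {G ι : Type} [AddCommGroup G] [Finite G] (t : ℕ) (s : Finset ι) (f : ι → G) : Prop :=
  ZV G ∧ s.card = t ∧ (∀ i ∈ s, f i ≠ 0) ∧ Cap 2 s f ∧ Aper (FS s f) ∧ gen s f = ⊤ ∧ (FS s f).card ≤ cf 2 t

/-! ## The groups -/

/-- **Gz** (1.2 h).  Facts about `G` with `ZV G`, `N = 4 p`.
(2) Suppose `x` has order 4 (`x + x ≠ 0`, `4 x = 0`); Cauchy: `y` of order `p`; `4` and `p` are coprime, so `x + y` has order `4 p` and `G` is cyclic.  (1) `{x | q x = 0}` is a subgroup killed by the prime `q`, its order is a power of `q` that divides `4 p`: it divides 4 (`q = 2`), `p` (`q = p`), or it is 1.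
(3) `3` does not divide `4 p`.  (4) the order of `K` divides `4 p`.  (5) let `K.index = 4`; for `x : G` the class of `x` in `G / K` has order 1, 2 or 4; in the last case 4 divides the order of `x`, and a multiple of `x` has order 4: against (2).  So `x + x ∈ K`.  (6) from (2).
(7) `P = {x + x}`, the range of doubling; its kernel `{x | x + x = 0}` has order 4: it is at most 4 by (1), and at least 4 because the order of `P` is not divisible by 2: otherwise some `x + x ≠ 0` has `2 (x + x) = 0`, against (2); so `|P|` divides `p`.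
So `P.index = 4`; subgroups of index 4 contain `P` by (5), so they are equal to `P`; subgroups of index 2 contain all `x + x`. -/
def St_Gz : Prop :=
  ∀ (G : Type) [AddCommGroup G] [Finite G], ZV G →
    R2 G ∧
    (∀ x : G, (4 : ℕ) • x = 0 → x + x = 0) ∧
    (∀ K : AddSubgroup G, Nat.card K ≠ 3) ∧
    (∀ K : AddSubgroup G, K ≠ ⊥ → K ≠ ⊤ → (Nat.card K = 2 ∨ Nat.card K = 4 ∨ K.index = 4 ∨ K.index = 2)) ∧
    (∀ K : AddSubgroup G, K.index = 4 → ∀ x : G, x + x ∈ K) ∧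
    (∀ K : AddSubgroup G, Nat.card K ≤ 4 → ∀ x ∈ K, x + x = 0) ∧
    (∃ P : AddSubgroup G, P.index = 4 ∧ (∀ x : G, x + x ∈ P) ∧ (∀ K : AddSubgroup G, K.index = 4 → K = P) ∧ ∀ K : AddSubgroup G, K.index = 2 → P ≤ K)

/-- **Ez** (0.5 h, from Gz).  (1) `DC` holds for all families: `c + c ∉ K` excludes the indices 1, 2, 4 (Gz (5); index 2: a square is in `K`), so `|K| ≤ 4` by Gz (4).
(2) no family is exceptional (`|K| = 3`).  (3) no `Gam`: a member `i` with `f i ∈ K`, `|K| = 4`, has `f i + f i = 0` (Gz (6)). -/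
def St_Ez : Prop :=
  ∀ (G ι : Type) [AddCommGroup G] [Finite G] (u : Finset ι) (f : ι → G), ZV G →
    DC u f ∧ ¬ Exc f u ∧ (AE u f → ∀ K : AddSubgroup G, ¬ Gam u f K)

/-- **Ng** (0.6 h, from Gz, Ez).  The engine in `G`: (1) `SSF.all_CCF SSF.all_GRO` (its hypothesis is `SSE.all_CC`, see SSF/Main.lean, `all_PR`) and `SSF.PR_all` give `C1N l`, `C2N l` for `l ≥ 4`.  (2) the growth alternatives `SSF.all_GrF SSF.all_GRO`, first two alternatives excluded by Ez. -/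
def St_Ng : Prop :=
  (∀ (G ι : Type) [AddCommGroup G] [Finite G] (u : Finset ι) (f : ι → G), ZV G → 4 ≤ u.card → AE u f → Aper (FS u f) →
    gen u f = ⊤ → Sep u f → 2 * (FS u f).card ≤ Nat.card G →
      2 + u.card * (u.card + 1) ≤ 2 * (FS u f).card ∧
      (u.card * u.card + 2 * u.card ≤ Nat.card G → 4 + u.card * (u.card + 1) ≤ 2 * (FS u f).card)) ∧
  (∀ (G ι : Type) [AddCommGroup G] [Finite G] (u : Finset ι) (f : ι → G), ZV G → 5 ≤ u.card → AE u f → Aper (FS u f) → gen u f = ⊤ →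
    4 * u.card + 1 ≤ Nat.card G → (u.card * (u.card - 1) + 3 ≤ Nat.card G ∨ 2 * (FS u f).card ≤ Nat.card G) →
      4 + u.card * (u.card + 1) ≤ 2 * (FS u f).card ∨
      ∀ i, 1 ≤ i → Nat.card G ≤ (it (sym u f) i).card + 4 ∨ i * (2 * u.card + 2) ≤ (it (sym u f) i).card + 1 ∨
        (i = 2 ∧ 4 * u.card + 2 ≤ (it (sym u f) i).card))

/-! ## The halves -/

/-- **Iz** (0.5 h, from Gz).  At least four members outside a subgroup of index 2.
Proof.  `w = |outs s f M| ≥ 1` (`gen s f = ⊤`); suppose `w ≤ 3`.  `Y = FS (ins s f M) f ⊆ M` is aperiodic (SDG.Ba1) and `|Y| ≥ cf 2 (t - w) ≥ cf 2 (t - 3)` (SSF.PR_all, `Cap` for subfamilies).  `T ⊇ Y ∪ (Y + f y)` (`y` outside `M`, disjoint): `|T| ≥ 2 cf 2 (t - 3)`.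
`2 cf 2 (t-3) > cf 2 t` for `t ≥ 10` (`cf 2 t = 1 + (t+1)^2/4`): contradiction. -/
def St_Iz : Prop :=
  ∀ (G ι : Type) [AddCommGroup G] [Finite G] (t : ℕ) (s : Finset ι) (f : ι → G) (M : AddSubgroup G), CtxZ t s f → 10 ≤ t → M.index = 2 →
    4 ≤ (outs s f M).card

/-- **Hz** (2 h, from Gz, Iz; compare SSF/HoF.lean, claims 2 and 3).  The halves.
Proof.  `P` as in Gz (7), `κ x` = number (`0..3`) of the class of `x` modulo `P` (index 4); `κ (-x) = κ x` (`x + x ∈ P`).  SSF.all_SpF gives `s1, s2` with `Bal κ`.  `δ_c = |s1 ∩ c| - |s2 ∩ c| ∈ {-1, 0, 1}` for the four classes `c`, `∑_c δ_c = |s1| - |s2| = t % 2`.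
Index 2: `M` is a union of classes (`P ≤ M`), two classes are outside `M`, `|outs s f M| ≥ 4` (Iz).  `|outs s1 f M| - |outs s2 f M| = ∑_{c outside M} δ_c` is between `-2` and `2`, so both are `≥ 1`.  If `t` is odd, at most one `δ_c` is `-1` (three others are at most `1`: the sum is 1; two values `-1` would give a sum `≤ 0`),
so the difference is `≥ -1` and `|outs s1 f M| ≥ 2`.
Order at most 4: members are not in `M` (Gz (6) and `AE`, SDG.Ba1 (5)): `|outs s_j f M| = |s_j| ≥ 2`.  Index 4, `M = P`: `s_j` has a member `x` outside a subgroup `M1` of index 2 containing `P`; let `M2` be the subgroup generated by `P` and `f x` (index 2): there is a member `y` outside `M2`; `x, y` are two members outside `P`.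
By Gz (4) these are all subgroups `≠ ⊥, ⊤`. -/
def St_Hz : Prop :=
  ∀ (G ι : Type) [AddCommGroup G] [Finite G] (t : ℕ) (s : Finset ι) (f : ι → G), CtxZ t s f → 10 ≤ t →
    ∃ s1 s2 : Finset ι, Disjoint s1 s2 ∧ s1 ∪ s2 = s ∧ AS s1 f ∧ AS s2 f ∧ s1.card = (t + 1) / 2 ∧ s2.card = t / 2 ∧
      (∀ M : AddSubgroup G, M ≠ ⊤ → 1 ≤ (outs s1 f M).card ∧ 1 ≤ (outs s2 f M).card) ∧ Sep s1 f ∧ Sep s2 f ∧
      (t % 2 = 1 → ∀ M : AddSubgroup G, M ≠ ⊤ → 2 ≤ (outs s1 f M).card)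

/-- **Lz** (1.3 h, from Gz, Ez, Ng; adapt the beginning of SSF/C2F.lean).  A half with `1 + l (l+1) / 2` sums: every member changes few sums.
Proof.  `2 |X| = 2 + l (l+1) ≤ N`.  `|outs u f M| ≥ 3` for `M ≠ ⊤`, `M.index ≠ 2` (`Sep` and SSF.all_DrF).  `i ∈ u`, `u' = u.erase i`: `gen u' f = ⊤` (otherwise SSF.all_DpF with `l - 1` gives `4 + l (l+1) ≤ 2 |X|`; its hypotheses `C1 (l-1)`, `C1N (l-1)` come from SSE.all_CC, SSF.all_CCF; `DC` is Ez), `Sep u' f`, `2 |FS u' f| ≤ N`.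
`N ≥ l^2 + l + 2 ≥ (l-1)^2 + 2 (l-1)`: Ng (1): `4 + l (l-1) ≤ 2 |FS u' f|`.  `|FS u' f| + lam X (f i) ≤ |X|` (as in C2F): `lam X (f i) ≤ l - 1`.  `lam X y ≤ l - 1` on `sym u f` by SSE.all_SyE. -/
def St_Lz : Prop :=
  ∀ (G ι : Type) [AddCommGroup G] [Finite G] (u : Finset ι) (f : ι → G), ZV G → 5 ≤ u.card → AE u f → Aper (FS u f) → gen u f = ⊤ → Sep u f →
    2 * (FS u f).card = 2 + u.card * (u.card + 1) → 2 * (FS u f).card ≤ Nat.card G → ∀ y ∈ sym u f, lam (FS u f) y + 1 ≤ u.card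

/-! ## `|T| ≤ N - 2` -/

/-- **Nz** (2 h, from Gz).  No subgroup nearly fills the sums of a half.
Proof.  `k = |K|`.  Suppose `|st X K| + 1 ≤ |X| + k`, where `K` has maximal order among the subgroups `≠ ⊥, ⊤` with this property.  `2 |X| ≤ N`, `2 |X| = 2 + l (l+1)`.
`K.index = 2`: `X` meets both cosets (`gen u f = ⊤`, some member is outside `K`): `N + 1 ≤ |X| + N / 2 ≤ N`.  `K.index = 4`: `gen u f = ⊤`, so two members `x, y` are outside `K` and in different cosets (otherwise all members are in `K ∪ (x + K)`, a proper subgroup because `x + x ∈ K`): `X` meets three cosets, `3 N / 4 + 1 ≤ |X| + N / 4`.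
`k = 2` or `k = 4`: the elements of `K` are killed by 2 (Gz (6)), so no member is in `K` (`AE`).  `X̄ = FS u (mk ∘ f)` in `G / K`, `|st X K| = k |X̄|`.  `X̄` is aperiodic: if `ḡ ≠ 0` is a period of `X̄` let `K'` be the preimage of the subgroup generated by `ḡ`; `st X K' = st X K`, `|K'| > |K|`; if `K' = ⊤`: `N + 1 ≤ |X| + k ≤ N / 2 + 4`, against `N ≥ 20`;
otherwise `|st X K'| + 1 ≤ |X| + |K'|`, against the maximality.
`k = 2`: the family `mk ∘ f` has cap 2: if `f i` is congruent to `± x` modulo `K = {0, z}` then `f i ∈ {x, x + z, -x, -x + z}`, which are two pairs `± x`, `± (x + z)` (`z = - z`), and `u` is antisymmetric.  `G / K` has order `2 p`, so it has rank at most two (`R2`: `#{x | q x = 0}` divides `2 p` and is a power of `q`); SSF.PR_all: `|X̄| ≥ cf 2 l = 1 + (l+1)^2/4`.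
`2 |X̄| + 1 ≤ |X| + 2` gives `4 ((l+1)^2/4) ≤ l (l+1)`: false for `l ≥ 1`.
`k = 4`: cap 4: the at most 8 elements of `(x + K) ∪ (-x + K)` form at most 4 pairs `{y, -y}` unless some of them are fixed (`y + y = 0`), and fixed elements are not members: so at most 4 members.
SDG.all_main (`TT 2 l`): `|X̄| ≥ cf 4 l`, `8 cf 4 l ≥ l^2 + 4 l + 8` (SDG.Nm2): `4 |X̄| + 1 ≤ |X| + 4` gives `l^2 + 4 l + 8 ≤ 2 |X| + 6 = l^2 + l + 8`: false. -/
def St_Nz : Prop :=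
  ∀ (G ι : Type) [AddCommGroup G] [Finite G] (u : Finset ι) (f : ι → G), ZV G → 5 ≤ u.card → AE u f → gen u f = ⊤ →
    2 * (FS u f).card = 2 + u.card * (u.card + 1) → 2 * (FS u f).card ≤ Nat.card G →
      ∀ K : AddSubgroup G, K ≠ ⊥ → K ≠ ⊤ → (FS u f).card + Nat.card K ≤ (st (FS u f) K).card

/-- **Kz** (1.2 h).  Critical pairs.  `G` is not cyclic.
Proof.  `Helper58.key` (Pool/Agent/Helper58/Atoms.lean) with `B = X`, `Q = ⊤`, `X = Y`: `NK X ⊤` is the hypothesis on `K` (`F K` has `Nat.card K` elements, `sat X K = st X K`; use `Fintype.ofFinite G`, the finset `FS` etc. does not depend on it), `Crit X ⊤ Y` from `|X + Y| + 1 ≤ |X| + |Y|` and `|X + Y| + 2 ≤ N`.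
It gives `d ≠ 0` with `|X ∪ (d + X)| ≤ |X| + 1`.  Let `C` be the subgroup generated by `d`.  If a coset of `C` meets `X` and is not contained in `X`, it contains an element `x + d ∉ X` with `x ∈ X`; so there is at most one such coset, hence `|st X C| ≤ |X| + |C| - 1` (such a coset contains an element of `X`).  `C ≠ ⊥` (`d ≠ 0`), `C ≠ ⊤` (`G` is not cyclic): against the hypothesis. -/
def St_Kz : Prop :=
  ∀ (G : Type) [AddCommGroup G] [Finite G] (X Y : Finset G), ¬ IsAddCyclic G → 2 ≤ X.card → 2 ≤ Y.card →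
    (∀ K : AddSubgroup G, K ≠ ⊥ → K ≠ ⊤ → X.card + Nat.card K ≤ (st X K).card) → (X + Y).card + 1 ≤ X.card + Y.card →
      (X + Y).card + 2 ≤ Nat.card G → False

/-! ## `|T| = N - 1` -/

/-- **Az** (1.5 h; compare SSF/A2W.lean).  Averaging.  `l ≥ 5`, `N = 2 + l (l+1) = 2 |X|`, `lam X y ≤ l - 1` on `D`, `|D| = 2 l + 3`.
Proof.  SSC.mdr_Av0 with `j = l - 1`, `k = h + 1`, `h = l / 2`, `x = |X|`: `j (1 + ∑_{i=1}^{h} |i D|) + (x - k j) |k D| ≤ x^2`.  If `|i D| + |D| > N` then `(i+1) D = G` (`g - D` meets `i D`).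
`l = 2 h` (`h ≥ 3`): `N = 4h^2 + 2h + 2`, `x = 2h^2 + h + 1`, `j = 2h - 1`, `x - k j = 2`.  `|i D| ≥ i (4h+4) - 1` for `1 ≤ i ≤ h - 1` (one less for `i = 2`; this is `≤ N - 4`), `|h D| ≥ N - 4`, `(h+1) D = G`.
Left side `≥ (2h-1)((4h+4) h (h-1)/2 - (h-1) + N - 4) + 2 N = 4h^4 + 6h^3 + 2h^2 + 3h + 5`; `x^2 = 4h^4 + 4h^3 + 5h^2 + 2h + 1`; difference `2h^3 - 3h^2 + h + 4 > 0`.
`l = 2 h + 1` (`h ≥ 2`): `N = 4h^2 + 6h + 4`, `x = 2h^2 + 3h + 2`, `j = 2h`, `x - k j = h + 2`.  `|i D| ≥ i (4h+6) - 1` for `1 ≤ i ≤ h` (one less for `i = 2`; it is `≤ N - 4`), `(h+1) D = G`.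
Left side `≥ 2h (1 + (4h+6) h (h+1)/2 - h - 1) + (h+2) N = 4h^4 + 14h^3 + 18h^2 + 16h + 8`; `x^2 = 4h^4 + 12h^3 + 17h^2 + 12h + 4`; difference `2h^3 + h^2 + 4h + 4 > 0`. -/
def St_Az : Prop :=
  ∀ (G : Type) [AddCommGroup G] [Finite G] (X D : Finset G) (l : ℕ), (0 : G) ∈ D → 5 ≤ l → (∀ y ∈ D, lam X y + 1 ≤ l) →
    2 * X.card = 2 + l * (l + 1) → Nat.card G = 2 + l * (l + 1) → D.card = 2 * l + 3 →
    (∀ i, 1 ≤ i → Nat.card G ≤ (it D i).card + 4 ∨ i * (2 * l + 4) ≤ (it D i).card + 1 ∨ (i = 2 ∧ 4 * l + 6 ≤ (it D i).card)) → False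

/-- **Bz** (1 h).  Two halves with the same members.  `l ≥ 5`, `N = 2 + l (l+1) = 2 |X|`, `lam X y ≤ l - 1` on the symmetric set `D` with `2 l + 1` elements, and `X + c` is disjoint from `X`: contradiction.
Proof.  `h = l / 2`.  `l = 2 h`: `|h D| ≥ N - 4` (`h ≥ 3`, `h (4h+2) - 1 ≥ N - 4`), `|D| = 4h + 1`: `|h D| + |D| > N`.  `l = 2 h + 1` (`h ≥ 2`): `|h D| ≥ min (N - 4, h (4h+4) - 2)`, `|D| = 4h + 3`, `|h D| + |D| ≥ 4h^2 + 8h + 1 > 4h^2 + 6h + 4 = N`.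
So `(h+1) D = G` and `lam X c ≤ (h+1)(l-1)` (`lam` is subadditive: Helper64.Rho.lam_add); but `lam X c = |X| = 1 + l (l+1)/2 > (h+1)(l-1)`. -/
def St_Bz : Prop :=
  ∀ (G : Type) [AddCommGroup G] [Finite G] (X D : Finset G) (l : ℕ) (c : G), (0 : G) ∈ D → 5 ≤ l → (∀ y ∈ D, lam X y + 1 ≤ l) →
    2 * X.card = 2 + l * (l + 1) → Nat.card G = 2 + l * (l + 1) → D.card = 2 * l + 1 →
    (∀ i, 1 ≤ i → Nat.card G ≤ (it D i).card + 4 ∨ i * (2 * l + 2) ≤ (it D i).card + 1 ∨ (i = 2 ∧ 4 * l + 2 ≤ (it D i).card)) →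
      (∀ x ∈ X, x + c ∉ X) → False

/-- **Dz** (0.7 h, from nothing; SSC.mdr_Sg).  If all members of `s2` are equal to `±` a member of `s1` and `|s1| = |s2|` then `FS s2 f` is a translate of `FS s1 f`.
Proof.  The map `s2 → s1` is injective (`AS s2 f`), so it is a bijection `σ`; `f' i = ± f i` on `s1` with `f' (σ j) = f j`.  `FS s2 f = FS s1 f'` (bijection of the subfamilies), and `FS s1 f' = FS s1 f + c` (proof of MDR.Sg, or directly: `c` = sum of the `f' i` with `f' i ≠ f i`). -/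
def St_Dz : Prop :=
  ∀ (G ι : Type) [AddCommGroup G] (s1 s2 : Finset ι) (f : ι → G), AS s1 f → AS s2 f → s1.card = s2.card →
    (∀ j ∈ s2, ∃ i ∈ s1, f j = f i ∨ f j = - f i) → ∃ c : G, ∀ x : G, x ∈ FS s2 f ↔ x - c ∈ FS s1 f

/-- **K2z** (0.7 h; adapt Pool/Agent/SSF/Kh2F.lean).  As SSF.Kh2F, with the weaker hypothesis `l (l-1) + 2 ≤ N` on the size of `G`.
Proof.  As there; only the case `m = q` changes: `|X| ≥ N - 1`, `2 (N - 1) ≥ 2 l (l-1) + 2 ≥ 4 + l (l+1)` for `l ≥ 5`. -/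
def St_K2z : Prop :=
  ∀ (G ι : Type) [AddCommGroup G] [Finite G] (u : Finset ι) (f : ι → G) (K : AddSubgroup G), AE u f → Aper (FS u f) → 5 ≤ u.card →
    (st (sym u f) K).card + 1 ≤ (sym u f).card + Nat.card K → APK (sym u f) K → u.card * (u.card - 1) + 2 ≤ Nat.card G → Nat.card K = 2 →
      4 + u.card * (u.card + 1) ≤ 2 * (FS u f).card

/-- **K4z** (0.7 h; adapt Pool/Agent/SSF/KhV.lean).  As SSF.KhV, with the weaker hypothesis `l (l-1) + 2 ≤ N`.  (Case `m = q`: `|X| ≥ N - 3`, `l = 4 a ≥ 8`, `2 (N - 3) ≥ 2 l (l-1) - 2 ≥ 4 + l (l+1)`.) -/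
def St_K4z : Prop :=
  ∀ (G ι : Type) [AddCommGroup G] [Finite G] (u : Finset ι) (f : ι → G) (K : AddSubgroup G), AE u f → Aper (FS u f) → 5 ≤ u.card →
    (st (sym u f) K).card + 1 ≤ (sym u f).card + Nat.card K → APK (sym u f) K → u.card * (u.card - 1) + 2 ≤ Nat.card G → (∀ x ∈ K, x + x = 0) →
      Nat.card K = 4 → 4 + u.card * (u.card + 1) ≤ 2 * (FS u f).card

/-- **Cz** (1.8 h, from Gz, Ez, Lz, Az, Bz, Dz, K2z, K4z, Ng).  The case `|T| = N - 1`.  `|s1| = |s2| = l`, `2 |X_j| = 2 + l (l+1) = N`.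
Proof.  `X_1 + X_2 ≠ G`; let `g ∉ X_1 + X_2`.  `y ∈ X_2` implies `g - y ∉ X_1`, and both sets have `N / 2` elements, so `y ∈ X_2` iff `g - y ∉ X_1`.  `X_1 = w - X_1` with `w = ∑_{i ∈ s1} f i`; so `y ∈ X_2` iff `y + c ∉ X_1`, `c = w - g`.  Hence `lam X_2 z = lam X_1 z` for all `z` (complements and translates have the same `lam`; `lam_compl`).
Lz for both parts: `lam X_1 y ≤ l - 1` on `sym s1 f` and on `sym s2 f`.
(a) Every `f j`, `j ∈ s2`, is `±` a member of `s1`: Dz: `X_2 = X_1 + c'`, so `x ∈ X_1` iff `x + c' ∈ X_2` iff `x + c' + c ∉ X_1`: Bz with `D = sym s1 f` (`|D| = 2 l + 1` by SSE.all_SyE, growth by Ng (2) with `N = l (l+1) + 2`; its first alternative is impossible): contradiction.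
(b) Otherwise let `j ∈ s2` with `f j ≠ ± f i` for `i ∈ s1`, `u' = insert j s1`: `AE u' f`, `l + 1` members, `Aper (FS u' f)` (subfamily), `gen u' f = ⊤`, `lam X_1 y ≤ l - 1` on `D' = sym u' f`, `|D'| = 2 l + 3`.  `|FS u' f| ≤ |X_1| + lam X_1 (f j) ≤ |X_1| + l - 1`, so `2 |FS u' f| ≤ l^2 + 3 l < 4 + (l+1)(l+2)`.
SSF.all_GRO for `u'` (`DC` by Ez, `4 (l+1) + 1 ≤ N`): first alternative: `|K| ∈ {2, 3, 4}`: `|K| ≠ 3` (Gz (3)), K2z, K4z (Gz (6)) with `(l+1) l + 2 ≤ N`: contradiction.  Second alternative: the hypotheses of Az for `D'`: contradiction. -/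
def St_Cz : Prop :=
  ∀ (G ι : Type) [AddCommGroup G] [Finite G] (s1 s2 : Finset ι) (f : ι → G), ZV G → Disjoint s1 s2 → AS s1 f → AS s2 f → 5 ≤ s1.card → s2.card = s1.card →
    Aper (FS (s1 ∪ s2) f) → gen s1 f = ⊤ → gen s2 f = ⊤ → Sep s1 f → Sep s2 f → 2 * (FS s1 f).card = 2 + s1.card * (s1.card + 1) →
      2 * (FS s2 f).card = 2 + s1.card * (s1.card + 1) → Nat.card G = 2 + s1.card * (s1.card + 1) → False

/-! ## The end -/

/-- **Ev** (1.3 h, from Gz, Ez, Ng, Hz, Nz, Kz, Cz).  `t = 2 l ≥ 10`.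
Proof.  Hz: `s1, s2`, `l` members each, `AE` (SDG.Ba1 (5)), generating, `Sep`.  `X_j = FS s_j f`, `T = X_1 + X_2`, `|X_1| + |X_2| ≤ |T| + 1 ≤ 2 + l (l+1)` and `≤ N` (SDG.all_Kn).  The smaller one has `2 |X_j| ≤ N` and `2 |X_j| ≤ 2 + l (l+1)`; Ng (1): `2 |X_j| ≥ 2 + l (l+1)`; so `|X_1| = |X_2|`, `2 |X_j| = 2 + l (l+1) ≤ N`, `|T| = |X_1| + |X_2| - 1`.
`|T| + 2 ≤ N`: Nz and Kz.  `|T| = N - 1`: then `N = 2 + l (l+1)`: Cz.  (`|T| < N` since `T` is aperiodic, `N ≥ 2`.) -/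
def St_Ev : Prop :=
  ∀ (G ι : Type) [AddCommGroup G] [Finite G] (l : ℕ) (s : Finset ι) (f : ι → G), 5 ≤ l → ¬ CtxZ (2 * l) s f

/-- **Od** (1.8 h, from Gz, Ez, Ng, Hz; adapt Pool/Agent/SSF/OdF.lean).  `t = 2 l - 1 ≥ 11`.
Proof.  `N > |T| ≥ cf 2 t = 1 + l^2` (SSF.PR_all), `N ≥ l^2 + 2`.  Hz: `|s1| = l ≥ 6`, `|s2| = l - 1 ≥ 5`.  `|X| + |X_2| ≤ |T| + 1 ≤ 2 + l^2` and `≤ N`, `X = FS s1 f`, `X_2 = FS s2 f`.
(i) `2 |X_2| ≥ 4 + l (l-1)`: if `2 |X_2| > N`: `2 |X_2| ≥ l^2 + 3`.  Otherwise Ng (1) second part (`N ≥ l^2 + 2 ≥ (l-1)^2 + 2 (l-1)`).  (ii) `2 |X| ≤ 2 (2 + l^2) - 4 - l (l-1) = l (l+1)`.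
(iii) `i ∈ s1`, `u' = s1.erase i`: `gen u' f = ⊤` (two members of `s1` outside every `M ≠ ⊤`: `t` is odd), `Sep u' f` (index `≠ 2`: `≥ 3` for `s1` by SSF.all_DrF).  If `lam X (f i) ≥ l - 1`: `2 |FS u' f| ≤ 2 |X| - 2 (l-1) ≤ 2 + l (l-1) ≤ N`: Ng (1), second part: `4 + l (l-1) ≤ 2 |FS u' f|`: contradiction.  So `lam X y ≤ l - 2` on `D = sym s1 f` (SSE.all_SyE).
And `2 |X| ≥ 2 + l (l-1)` (it contains `FS u' f`: Ng (1) or `2 |FS u' f| > N`).  (iv) Ng (2) for `s1` (`l (l-1) + 3 ≤ N`): the first alternative contradicts (ii).  (v) as in OdF (vi): SSE.all_A1E for `X` if `2 |X| ≤ N`, otherwise for the complement. -/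
def St_Od : Prop :=
  ∀ (G ι : Type) [AddCommGroup G] [Finite G] (l : ℕ) (s : Finset ι) (f : ι → G), 6 ≤ l → ¬ CtxZ (2 * l - 1) s f

/-- **FinZ** (0.2 h, from Ev, Od). -/
def St_FinZ : Prop :=
  ∀ (G ι : Type) [AddCommGroup G] [Finite G] (s : Finset ι) (f : ι → G), ZV G → 10 ≤ s.card → (∀ i ∈ s, f i ≠ 0) → Cap 2 s f → Aper (FS s f) →
    gen s f = ⊤ → cf 2 s.card + 1 ≤ (FS s f).card

/-- **Bd** (1 h, from Gz).  The bound `bd2`.  (1) `G` has a subgroup `K` of order 2 with `G / K` cyclic: `bd2 G m ≤ val2 m K = 2 cf 4 (m - 1)` (`m ≥ 2`).  (Any `K` of order 2: `G / K` has order `2 p`; it has an element of order `p`, and an element of order 2, so it is cyclic.)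
(2) numbers: `2 cf 4 (m - 1) ≤ cf 2 m + 1` (`m - 1 = 4 a + r`; `cf 2 m = 1 + (m+1)^2/4`; equality unless `r = 0`). -/
def St_Bd : Prop :=
  ∀ (G : Type) [AddCommGroup G] [Finite G] (m : ℕ), ZV G → 2 ≤ m → Pool.Agent.SNW.bd2 G m ≤ cf 2 m + 1

/-- **NfZ** (0.8 h, from FinZ, Bd).  `NFP G`, from the three small cases (which are a computation).
Proof.  `m = |A|`.  `m = 1`: `closure A = ⊤` is impossible (not cyclic).  `bd2 G m ≤ cf 2 m + 1` (Bd), so we need `|FS A| ≥ cf 2 m + 1` or `bd2 G m ≤ cf 2 m`.  `m ≥ 10`: FinZ (`Cap 2 A id`: at most `x` and `-x`).  `m ≤ 9`: `N ≤ |FS A| + J (J-1)` and `|FS A| ≤ cf 2 m` give `N ≤ cf 2 m + J (J-1) ≤ 26 + 20`, more precisely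
`m ≤ 6`: `cf 2 m + J (J-1) ≤ 13 + 6 < 20 ≤ N`; `m = 7`: `N ≤ 17 + 12 = 29`: `N = 20, 28`; `m = 8`: `N ≤ 21 + 12 = 33`: `N = 28` (`N > |FS A| ≥ 21` by SSF.PR_all); `m = 9`: `bd2 G 9 ≤ 2 cf 4 8 = 26 = cf 2 9`.  In the remaining cases the hypotheses `hS` and SSF.PR_all. -/
def St_NfZ : Prop :=
  (∀ (G : Type) [AddCommGroup G] [Finite G] (A : Finset G), ZV G → (0 : G) ∉ A → Aper (FS A id) → AddSubgroup.closure (A : Set G) = ⊤ →
    ((A.card = 7 ∧ Nat.card G = 20) ∨ (A.card = 7 ∧ Nat.card G = 28) ∨ (A.card = 8 ∧ Nat.card G = 28)) → cf 2 A.card + 1 ≤ (FS A id).card) →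
  ∀ (G : Type) [AddCommGroup G] [Finite G], ZV G → Pool.Agent.SNW.NFP G

end Pool.Agent.SSZ
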