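import Pool.Agent.SSZ.St
import Pool.Agent.SSF.Fin

/-!
# SSZ: module Ng, the engine in the groups with `ZV`
-/

set_option autoImplicit false

noncomputable section

open Finset Pool.Agent.Helper64.Rho Pool.Agent.SDG Pool.Agent.MDR Pool.Agent.SSC Pool.Agent.SSE Pool.Agent.SSF
open scoped Classical Pointwise

namespace Pool.Agent.SSZ

private lemma Ng_CC : ∀ l : ℕ, 4 ≤ l → C1N l ∧ C2N l := fun l hl =>
  Pool.Agent.SSF.all_CCF Pool.Agent.SSF.all_GRO
    (fun l hl => (Pool.Agent.SSE.all_CC l hl fun n _ => Pool.Agent.SSE.all_PFE n).1) l hl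
    (fun n _ => Pool.Agent.SSF.PR_all n)

/-- The engine. -/
theorem thm_Ng : St_Gz → St_Ez → St_Ng := by
  intro hGz hEz
  refine ⟨?_, ?_⟩
  · intro G ι _ _ u f hZ h4 hAE hAp hgen hSep h2
    obtain ⟨hDC, hEx, hGam⟩ := hEz G ι u f hZ
    have hR2 := (hGz G hZ).1
    refine ⟨?_, ?_⟩
    · rcases (Ng_CC u.card h4).1 G ι u f hR2 hZ.1 rfl hAE hAp hgen hDC hSep h2 with h | h
      · exact h
      · exact absurd h hEx
    · intro hN
      rcases (Ng_CC u.card h4).2 G ι u f hR2 hZ.1 rfl hAE hAp hgen hDC hSep h2 hN with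
        h | h | ⟨K, hK⟩
      · exact h
      · exact absurd h hEx
      · exact absurd hK (hGam hAE K)
  · intro G ι _ _ u f hZ h5 hAE hAp hgen hN hor
    obtain ⟨hDC, hEx, hGam⟩ := hEz G ι u f hZ
    have hR2 := (hGz G hZ).1
    rcases Pool.Agent.SSF.all_GrF Pool.Agent.SSF.all_GRO G ι u f hR2 hZ.1 hAE hAp hgen h5 hDC hN hor
      with h | ⟨K, hK, _⟩ | h | h
    · exact absurd h hEx
    · exact absurd hK (hGam hAE K)
    · exact Or.inl h
    · exact Or.inr h

end Pool.Agent.SSZ
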