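import Pool.Agent.SSZ.St
import Pool.Agent.MDR.Av0

/-!
# SSZ, Az: averaging with one member more than in a half
-/

set_option autoImplicit false

noncomputable section

open Finset Pool.Agent.Helper64.Rho Pool.Agent.SDG Pool.Agent.MDR Pool.Agent.SSC Pool.Agent.SSE Pool.Agent.SSF
open scoped Classical Pointwise

namespace Pool.Agent.SSZ

private lemma Az_sum (K h : ℕ) (g : ℕ → ℕ) (h0 : 1 ≤ g 0) (h1 : K ≤ g 1 + 1)
    (h2 : 2 * K ≤ g 2 + 2) (hh : 2 ≤ h) (h3 : ∀ i, 3 ≤ i → i ≤ h → i * K ≤ g i + 1) :
    K * h * (h + 1) ≤ 2 * ∑ i ∈ range (h + 1), g i + 2 * h := by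
  induction h, hh using Nat.le_induction with
  | base =>
    rw [sum_range_succ, sum_range_succ, sum_range_succ, sum_range_zero]
    have e : K * 2 * (2 + 1) = 6 * K := by ring
    rw [e]
    omega
  | succ n hn ih =>
    rw [sum_range_succ]
    have h4 := ih (fun i hi hi2 => h3 i hi (by omega))
    have h5 := h3 (n + 1) (by omega) le_rfl
    have e : K * (n + 1) * (n + 1 + 1) = K * n * (n + 1) + 2 * ((n + 1) * K) := by ring
    rw [e]
    omega

private lemma Az_full {G : Type} [AddCommGroup G] [Finite G] (A B : Finset G)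
    (h : Nat.card G < A.card + B.card) : (A + B).card = Nat.card G := by
  haveI := Fintype.ofFinite G
  rw [Nat.card_eq_fintype_card] at h ⊢
  have e : A + B = univ := by
    apply Finset.eq_univ_of_forall
    intro g
    by_contra hg
    have hd : Disjoint (A.image fun a => g - a) B := by
      rw [Finset.disjoint_left]
      intro x hx hxB
      obtain ⟨a, ha, rfl⟩ := Finset.mem_image.1 hx
      apply hg
      have := Finset.add_mem_add ha hxB
      rwa [add_sub_cancel] at this
    have h1 := Finset.card_union_of_disjoint hd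
    have h2 := Finset.card_le_univ ((A.image fun a => g - a) ∪ B)
    have h3 : (A.image fun a => g - a).card = A.card :=
      Finset.card_image_of_injective _ (sub_right_injective)
    omega
  rw [e, Finset.card_univ]

private lemma Az_p1 (z : ℤ) (hz : 2 ≤ z) : 0 < 4 * z ^ 3 + 6 * z ^ 2 + 2 * z + 8 := by positivity

private lemma Az_p2 (z : ℤ) (hz : 2 ≤ z) : 0 < 4 * z ^ 3 + 2 * z ^ 2 + 8 * z + 8 := by positivity

theorem thm_Az : St_Az := by
  intro G _ _ X D l h0 hl hlam hX hN hD hg
  have hAv := Pool.Agent.MDR.thm_Av0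
  have ha0 : 1 ≤ (it D 0).card := by simp [it]
  have ha1 : 2 * l + 4 ≤ (it D 1).card + 1 := by
    have e : it D 1 = D := by
      show {0} + D = D
      rw [Finset.singleton_zero, zero_add]
    rw [e, hD]
  have ha2 : 2 * (2 * l + 4) ≤ (it D 2).card + 2 := by
    rcases hg 2 (by omega) with h | h | h
    · rw [hN] at h
      nlinarith
    · omega
    · omega
  have hai : ∀ i, 3 ≤ i → Nat.card G ≤ (it D i).card + 4 ∨ i * (2 * l + 4) ≤ (it D i).card + 1 := by
    intro i hi
    rcases hg i (by omega) with h | h | h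
    · exact Or.inl h
    · exact Or.inr h
    · omega
  obtain ⟨h, r, hm, hr⟩ : ∃ h r, l = 2 * h + r ∧ r < 2 := ⟨l / 2, l % 2, by omega, by omega⟩
  have hh : 2 ≤ h := by omega
  interval_cases r
  · -- even
    obtain ⟨m, rfl⟩ : ∃ m, h = m + 1 := ⟨h - 1, by omega⟩
    have hm2 : 2 ≤ m := by omega
    have el : l = 2 * m + 2 := by omega
    clear hm hr
    subst el
    have eN : Nat.card G = 4 * m ^ 2 + 10 * m + 8 := by rw [hN]; ring
    have ex : X.card = 2 * m ^ 2 + 5 * m + 4 := by
      have : 2 * X.card = 2 * (2 * m ^ 2 + 5 * m + 4) := by rw [hX]; ring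
      omega
    have hS := Az_sum (2 * (2 * m + 2) + 4) m (fun i => (it D i).card) ha0 ha1 ha2 hm2
      (fun i hi hi2 => by
        rcases hai i hi with h1 | h1
        · have h2 : i * (2 * (2 * m + 2) + 4) ≤ m * (2 * (2 * m + 2) + 4) :=
            Nat.mul_le_mul_right _ hi2
          have h3 : m * (2 * (2 * m + 2) + 4) + 3 ≤ Nat.card G := by
            rw [eN]
            nlinarith
          show i * (2 * (2 * m + 2) + 4) ≤ (it D i).card + 1
          omega
        · exact h1)
    have htop : Nat.card G ≤ (it D (m + 1)).card + 4 := by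
      rcases hai (m + 1) (by omega) with h1 | h1
      · exact h1
      · have h3 : Nat.card G ≤ (m + 1) * (2 * (2 * m + 2) + 4) + 3 := by
          rw [eN]
          nlinarith
        omega
    have hfull : (it D (m + 2)).card = Nat.card G := by
      show (it D (m + 1) + D).card = Nat.card G
      apply Az_full
      rw [hD]
      omega
    have hjx : (m + 2) * (2 * m + 1) ≤ X.card := by
      rw [ex]
      nlinarith
    have hfin := hAv G X D (2 * m + 1) (m + 2) h0 (fun y hy => by have := hlam y hy; omega) hjx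
    have hc : X.card - (m + 2) * (2 * m + 1) = 2 := by
      have : X.card = (m + 2) * (2 * m + 1) + 2 := by rw [ex]; ring
      omega
    rw [hc, hfull, sum_range_succ] at hfin
    generalize (∑ i ∈ range (m + 1), (it D i).card) = S at hfin hS
    generalize (it D (m + 1)).card = a at hfin htop
    have h11 := Nat.mul_le_mul_left (2 * m + 1) hS
    have h12 := Nat.mul_le_mul_left (2 * m + 1) htop
    rw [eN] at h12 hfin
    rw [ex] at hfin
    have e1 : (2 * m + 1) * (2 * S + 2 * m) = 2 * ((2 * m + 1) * S) + 2 * ((2 * m + 1) * m) := by ring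
    have e2 : (2 * m + 1) * (a + 4) = (2 * m + 1) * a + 4 * (2 * m + 1) := by ring
    have e3 : (2 * m + 1) * (S + a) = (2 * m + 1) * S + (2 * m + 1) * a := by ring
    rw [e1] at h11
    rw [e2] at h12
    rw [e3] at hfin
    generalize (2 * m + 1) * S = P at *
    generalize (2 * m + 1) * a = Q at *
    have hmz : (2 : ℤ) ≤ m := by exact_mod_cast hm2
    have hpos := Az_p1 (m : ℤ) hmz
    have h11z : ((2 * m + 1) * ((2 * (2 * m + 2) + 4) * m * (m + 1)) : ℤ) ≤
      2 * P + 2 * ((2 * m + 1) * m) := by exact_mod_cast h11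
    have h12z : ((2 * m + 1) * (4 * m ^ 2 + 10 * m + 8) : ℤ) ≤ Q + 4 * (2 * m + 1) := by
      exact_mod_cast h12
    have hfz : ((P + Q) + 2 * (4 * m ^ 2 + 10 * m + 8) : ℤ) ≤ (2 * m ^ 2 + 5 * m + 4) ^ 2 := by
      exact_mod_cast hfin
    nlinarith
  · -- odd
    have el : l = 2 * h + 1 := by omega
    clear hm hr
    subst el
    have eN : Nat.card G = 4 * h ^ 2 + 6 * h + 4 := by rw [hN]; ring
    have ex : X.card = 2 * h ^ 2 + 3 * h + 2 := by
      have : 2 * X.card = 2 * (2 * h ^ 2 + 3 * h + 2) := by rw [hX]; ring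
      omega
    have hK : h * (2 * (2 * h + 1) + 4) + 3 ≤ Nat.card G + 4 := by
      rw [eN]
      nlinarith
    have hge : ∀ i, 3 ≤ i → i ≤ h → i * (2 * (2 * h + 1) + 4) ≤ (it D i).card + 1 := by
      intro i hi hi2
      rcases hai i hi with h1 | h1
      · have h2 : i * (2 * (2 * h + 1) + 4) ≤ h * (2 * (2 * h + 1) + 4) :=
          Nat.mul_le_mul_right _ hi2
        have h3 : h * (2 * (2 * h + 1) + 4) + 3 ≤ Nat.card G := by
          rw [eN]
          nlinarith
        omega
      · exact h1
    have hS := Az_sum (2 * (2 * h + 1) + 4) h (fun i => (it D i).card) ha0 ha1 ha2 hh hge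
    have htop : h * (2 * (2 * h + 1) + 4) ≤ (it D h).card + 2 := by
      rcases Nat.lt_or_ge h 3 with h3 | h3
      · have : h = 2 := by omega
        subst this
        exact ha2
      · have := hge h h3 le_rfl
        omega
    have hfull : (it D (h + 1)).card = Nat.card G := by
      show (it D h + D).card = Nat.card G
      apply Az_full
      rw [hD]
      have h3 : Nat.card G + 3 ≤ h * (2 * (2 * h + 1) + 4) + 2 * (2 * h + 1) + 3 := by
        rw [eN]
        nlinarith
      omega
    have hjx : (h + 1) * (2 * h) ≤ X.card := by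
      rw [ex]
      nlinarith
    have hfin := hAv G X D (2 * h) (h + 1) h0 (fun y hy => by have := hlam y hy; omega) hjx
    have hc : X.card - (h + 1) * (2 * h) = h + 2 := by
      have : X.card = (h + 1) * (2 * h) + (h + 2) := by rw [ex]; ring
      omega
    rw [hc, hfull] at hfin
    generalize (∑ i ∈ range (h + 1), (it D i).card) = S at hfin hS
    have h11 := Nat.mul_le_mul_left (2 * h) hS
    rw [eN, ex] at hfin
    have e1 : (2 * h) * (2 * S + 2 * h) = 2 * ((2 * h) * S) + 2 * ((2 * h) * h) := by ring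
    rw [e1] at h11
    generalize (2 * h) * S = P at *
    have hmz : (2 : ℤ) ≤ h := by exact_mod_cast hh
    have hpos := Az_p2 (h : ℤ) hmz
    have h11z : ((2 * h) * ((2 * (2 * h + 1) + 4) * h * (h + 1)) : ℤ) ≤
      2 * P + 2 * ((2 * h) * h) := by exact_mod_cast h11
    have hfz : (P + (h + 2) * (4 * h ^ 2 + 6 * h + 4) : ℤ) ≤ (2 * h ^ 2 + 3 * h + 2) ^ 2 := by
      exact_mod_cast hfin
    nlinarith

end Pool.Agent.SSZ
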