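import Pool.Agent.SSZ.St

/-!
# SSZ: the bound `bd2` for the groups `Z_2 × Z_2p` (`St_Bd`)
-/

set_option autoImplicit false

noncomputable section

open Finset Pool.Agent.Helper64.Rho Pool.Agent.SDG Pool.Agent.MDR Pool.Agent.SSC Pool.Agent.SSE Pool.Agent.SSF
open scoped Classical Pointwise

namespace Pool.Agent.SSZ

private lemma Bd_num (m : ℕ) (hm : 2 ≤ m) : 2 * cf 4 (m - 1) ≤ cf 2 m + 1 := by
  obtain ⟨-, h2, h3, -, -, -⟩ := Pool.Agent.SDG.all_Nm1
  obtain ⟨a, r, hr, hm'⟩ : ∃ a r : ℕ, r < 4 ∧ m = 4 * a + r + 1 :=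
    ⟨(m - 1) / 4, (m - 1) % 4, Nat.mod_lt _ (by norm_num), by omega⟩
  have h4 := h2 4 a r (by norm_num) (by omega)
  have e1 : m - 1 = 4 * a + r := by omega
  rw [e1, h4, h3]
  have e2 : (m + 1) ^ 2 = 4 * (4 * a * a + 2 * a * r + 4 * a + r + 1) + r ^ 2 := by
    rw [hm']; ring
  rw [e2, Nat.mul_add_div (by norm_num)]
  generalize hA : a * a = A
  have e3 : 4 * a * (a + 1) = 4 * A + 4 * a := by rw [← hA]; ring
  have e4 : 4 * a * a = 4 * A := by rw [← hA]; ring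
  rw [e3, e4]
  interval_cases r <;> norm_num <;> omega

private lemma Bd_cyc (Q : Type) [AddCommGroup Q] [Finite Q] (p : ℕ) (hp : p.Prime) (h5 : 5 ≤ p)
    (hc : Nat.card Q = 2 * p) : IsAddCyclic Q := by
  haveI : Fact p.Prime := ⟨hp⟩
  haveI : Fact (Nat.Prime 2) := ⟨Nat.prime_two⟩
  obtain ⟨a, ha⟩ := exists_prime_addOrderOf_dvd_card' (G := Q) p (by rw [hc]; exact dvd_mul_left _ _)
  obtain ⟨b, hb⟩ := exists_prime_addOrderOf_dvd_card' (G := Q) 2 (by rw [hc]; exact dvd_mul_right _ _)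
  have hcop : Nat.Coprime (addOrderOf a) (addOrderOf b) := by
    rw [ha, hb]
    exact (Nat.coprime_primes hp Nat.prime_two).2 (by omega)
  have hab := (AddCommute.all a b).addOrderOf_add_eq_mul_addOrderOf_of_coprime hcop
  refine isAddCyclic_of_addOrderOf_eq_card (a + b) ?_
  rw [hab, ha, hb, hc]
  ring

/-- (Bd) -/
theorem thm_Bd : St_Gz → St_Bd := by
  intro _ G _ _ m hG hm
  obtain ⟨-, p, hp, h5, hcard⟩ := hG
  haveI : Fact (Nat.Prime 2) := ⟨Nat.prime_two⟩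
  obtain ⟨x, hx⟩ := exists_prime_addOrderOf_dvd_card' (G := G) 2 (by rw [hcard]; exact ⟨2 * p, by ring⟩)
  have hK : Nat.card (AddSubgroup.zmultiples x) = 2 := by rw [Nat.card_zmultiples, hx]
  have hKT : AddSubgroup.zmultiples x ≠ ⊤ := by
    intro h
    rw [h, AddSubgroup.card_top, hcard] at hK
    omega
  have hq : Nat.card (G ⧸ AddSubgroup.zmultiples x) = 2 * p := by
    have h1 := AddSubgroup.card_eq_card_quotient_mul_card_addSubgroup (AddSubgroup.zmultiples x)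
    rw [hK, hcard] at h1
    omega
  have hcyc : IsAddCyclic (G ⧸ AddSubgroup.zmultiples x) := Bd_cyc _ p hp h5 hq
  have h1 := Pool.Agent.SNW.bd2_le_cyc m (AddSubgroup.zmultiples x) hKT hcyc
  rw [hK] at h1
  have e1 : max 1 (m + 1 - 2) = m - 1 := by omega
  rw [e1] at h1
  exact h1.trans (Bd_num m hm)

end Pool.Agent.SSZ
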