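import Mathlib
import Pool.Agent.SSZ.St

/-!
# SSZ, Bz: two halves with the same members
-/

set_option autoImplicit false

noncomputable section

open Finset Pool.Agent.Helper64.Rho Pool.Agent.SDG Pool.Agent.MDR Pool.Agent.SSC Pool.Agent.SSE Pool.Agent.SSF
open scoped Classical Pointwise

namespace Pool.Agent.SSZ

private lemma Bz_all {G : Type} [AddCommGroup G] [Finite G] (A B : Finset G) (h : Nat.card G < A.card + B.card) (g : G) :
    g ∈ A + B := by
  have : Fintype G := Fintype.ofFinite G
  by_contra hg
  have hd : Disjoint A (B.image fun b => g - b) := by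
    rw [Finset.disjoint_left]
    intro a ha hb
    obtain ⟨b, hb1, hb2⟩ := Finset.mem_image.mp hb
    apply hg
    rw [Finset.mem_add]
    exact ⟨a, ha, b, hb1, by rw [← hb2]; abel⟩
  have hc : (B.image fun b => g - b).card = B.card :=
    Finset.card_image_of_injective _ fun a b hab => sub_right_injective hab
  have h1 : (A ∪ B.image fun b => g - b).card ≤ Nat.card G := by
    rw [Nat.card_eq_fintype_card]
    exact Finset.card_le_univ _
  rw [Finset.card_union_of_disjoint hd, hc] at h1
  omega

private lemma Bz_lam {G : Type} [AddCommGroup G] (X D : Finset G) (j : ℕ) (hD : ∀ y ∈ D, lam X y ≤ j) :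
    ∀ (k : ℕ) (c : G), c ∈ it D k → lam X c ≤ k * j := by
  intro k
  induction k with
  | zero =>
    intro c hc
    have hc0 : c = 0 := by simpa [it] using hc
    rw [hc0, lam_zero]
    exact Nat.zero_le _
  | succ k ih =>
    intro c hc
    obtain ⟨a, ha, b, hb, rfl⟩ := Finset.mem_add.mp (show c ∈ it D k + D from hc)
    have h1 := lam_add X a b
    have h2 := ih a ha
    have h3 := hD b hb
    have e : (k + 1) * j = k * j + j := by ring
    rw [e]
    omega

theorem thm_Bz : St_Bz := by
  intro G _ _ X D l c _ hl hlam hX hN hD hg hc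
  obtain ⟨j, rfl⟩ : ∃ j, l = j + 1 := ⟨l - 1, by omega⟩
  have hlam' : ∀ y ∈ D, lam X y ≤ j := fun y hy => by have := hlam y hy; omega
  obtain ⟨h, r, hm, hr⟩ : ∃ h r, j + 1 = 2 * h + r ∧ r < 2 :=
    ⟨(j + 1) / 2, (j + 1) % 2, by omega, by omega⟩
  have hh : 2 ≤ h := by omega
  have hbig : Nat.card G < (it D h).card + D.card := by
    rw [hD, hN]
    have hgh := hg h (by omega)
    rw [hN] at hgh
    rw [hm] at hgh ⊢
    interval_cases r
    · have h3 : 3 ≤ h := by omega
      rcases hgh with h1 | h1 | h1
      · omega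
      · nlinarith
      · omega
    · rcases hgh with h1 | h1 | h1
      · omega
      · nlinarith
      · obtain ⟨h2, h4⟩ := h1
        subst h2
        omega
  have hmem : c ∈ it D (h + 1) := Bz_all (it D h) D hbig c
  have h1 := Bz_lam X D j hlam' (h + 1) c hmem
  have h2 : lam X c = X.card := by
    unfold lam
    rw [Finset.filter_true_of_mem hc]
  rw [h2] at h1
  have hj : (j : ℤ) = 2 * h + r - 1 := by
    have : (j : ℤ) + 1 = 2 * h + r := by exact_mod_cast hm
    linarith
  have h3 : (X.card : ℤ) ≤ (h + 1) * j := by exact_mod_cast h1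
  have h4 : 2 * (X.card : ℤ) = 2 + (j + 1) * (j + 1 + 1) := by exact_mod_cast hX
  have hhz : (2 : ℤ) ≤ h := by exact_mod_cast hh
  rw [hj] at h3 h4
  interval_cases r
  · push_cast at h3 h4
    nlinarith
  · push_cast at h3 h4
    nlinarith

end Pool.Agent.SSZ
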