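import Pool.Agent.SSF.Fin
import Pool.Agent.SSZ.St

/-!
# SSZ, module Cz: the case `|T| = N - 1`
-/

set_option autoImplicit false

noncomputable section

open Finset Pool.Agent.Helper64.Rho Pool.Agent.SDG Pool.Agent.MDR Pool.Agent.SSC Pool.Agent.SSE Pool.Agent.SSF
open scoped Classical Pointwise

namespace Pool.Agent.SSZ

private theorem Cz_symm {G ι : Type} [AddCommGroup G] (s : Finset ι) (f : ι → G) {x : G} (hx : x ∈ FS s f) :
    ∑ i ∈ s, f i - x ∈ FS s f := by
  obtain ⟨t, ht, rfl⟩ := mem_FS.1 hx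
  refine mem_FS.2 ⟨s \ t, sdiff_subset, ?_⟩
  rw [← Finset.sum_sdiff ht, add_sub_cancel_right]

private theorem Cz_lam {G : Type} [AddCommGroup G] (X Y : Finset G) (c : G) (h : ∀ y, y ∈ Y ↔ y + c ∉ X) (z : G) :
    lam Y z = lam X z := by
  rw [← lam_neg X z]
  unfold lam
  refine card_bij (fun b _ => b + z + c) ?_ ?_ ?_
  · intro b hb
    rw [mem_filter, h, h, not_not] at hb
    rw [mem_filter]
    refine ⟨hb.2, ?_⟩
    rw [show b + z + c + -z = b + c by abel]
    exact hb.1
  · intro a _ b _ hab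
    exact add_right_cancel (add_right_cancel hab)
  · intro b hb
    rw [mem_filter] at hb
    refine ⟨b - c - z, ?_, by abel⟩
    rw [mem_filter, h, h, not_not]
    refine ⟨?_, ?_⟩
    · rw [show b - c - z + c = b + -z by abel]
      exact hb.2
    · rw [show b - c - z + z + c = b by abel]
      exact hb.1

private theorem Cz_AE {G ι : Type} [AddCommGroup G] {s u : Finset ι} {f : ι → G}
    (hus : u ⊆ s) (hap : Aper (FS s f)) (hA : AS u f) : AE u f := by
  refine ⟨hA, fun i hi h => ?_⟩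
  exact (SDG.all_Ba1 G ι f).2.2.2.2.1 s i (hus hi) hap (hA.1 i hi) (eq_neg_of_add_eq_zero_left h)

private theorem Cz_exists {G ι : Type} [AddCommGroup G] {s : Finset ι} {f : ι → G} (hs : s.Nonempty)
    (h0 : ∀ i ∈ s, f i ≠ 0) (hap : Aper (FS s f)) : ∃ g : G, g ∉ FS s f := by
  by_contra hcon
  push Not at hcon
  obtain ⟨i, hi⟩ := hs
  exact h0 i hi (hap (f i) fun x _ => hcon _)

/-- the second set of sums is a translate of the complement of the first one -/
private theorem Cz_compl {G ι : Type} [AddCommGroup G] [Finite G] {s1 s2 : Finset ι} {f : ι → G} (hd : Disjoint s1 s2)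
    {g : G} (hg : g ∉ FS (s1 ∪ s2) f) (hc : (FS s1 f).card + (FS s2 f).card = Nat.card G) :
    ∃ c : G, ∀ y, y ∈ FS s2 f ↔ y + c ∉ FS s1 f := by
  have : Fintype G := Fintype.ofFinite G
  obtain ⟨c, hcd⟩ : ∃ c, c = ∑ i ∈ s1, f i - g := ⟨_, rfl⟩
  refine ⟨c, ?_⟩
  have h1 : ∀ y ∈ FS s2 f, y + c ∉ FS s1 f := by
    intro y hy hy1
    have h2 := Cz_symm s1 f hy1
    refine hg ((mem_FS_union hd f).2 ⟨_, h2, y, hy, ?_⟩)
    rw [hcd]
    abel
  obtain ⟨Y, hY⟩ : ∃ Y : Finset G, Y = univ.filter fun y => y + c ∉ FS s1 f := ⟨_, rfl⟩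
  have h2 : FS s2 f ⊆ Y := by
    intro y hy
    rw [hY, mem_filter]
    exact ⟨mem_univ _, h1 y hy⟩
  have h3 : Y.card = ((FS s1 f)ᶜ).card := by
    refine card_bij (fun b _ => b + c) ?_ ?_ ?_
    · intro b hb
      rw [hY, mem_filter] at hb
      rw [mem_compl]
      exact hb.2
    · intro a _ b _ hab
      exact add_right_cancel hab
    · intro b hb
      rw [mem_compl] at hb
      refine ⟨b - c, ?_, sub_add_cancel _ _⟩
      rw [hY, mem_filter]
      exact ⟨mem_univ _, by rw [sub_add_cancel]; exact hb⟩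
  have h4 : ((FS s1 f)ᶜ).card + (FS s1 f).card = Nat.card G := by
    rw [card_compl_add_card, Nat.card_eq_fintype_card]
  have h5 : FS s2 f = Y := eq_of_subset_of_card_le h2 (by omega)
  intro y
  rw [h5, hY, mem_filter]
  exact ⟨fun h => h.2, fun h => ⟨mem_univ _, h⟩⟩

private theorem Cz_AS {G ι : Type} [AddCommGroup G] {s : Finset ι} {f : ι → G} {j : ι} (hs : AS s f)
    (hj0 : f j ≠ 0) (hj : ∀ i ∈ s, f j ≠ f i ∧ f j ≠ - f i) : AS (insert j s) f := by
  refine ⟨fun i hi => ?_, fun x => ?_⟩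
  · rcases mem_insert.1 hi with rfl | hi
    · exact hj0
    · exact hs.1 i hi
  · by_cases hjx : f j = x ∨ f j = -x
    · have h1 : (insert j s).filter (fun i => f i = x ∨ f i = -x) ⊆ {j} := by
        intro i hi
        rw [mem_filter, mem_insert] at hi
        rw [mem_singleton]
        rcases hi.1 with h | h
        · exact h
        · exfalso
          obtain ⟨h2, h3⟩ := hj i h
          rcases hjx with h4 | h4 <;> rcases hi.2 with h5 | h5
          · exact h2 (h4.trans h5.symm)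
          · refine h3 ?_
            rw [h4, h5, neg_neg]
          · refine h3 ?_
            rw [h4, h5]
          · exact h2 (h4.trans h5.symm)
      exact (card_le_card h1).trans (by rw [card_singleton])
    · rw [filter_insert, if_neg hjx]
      exact hs.2 x

theorem thm_Cz : St_Gz → St_Ez → St_Lz → St_Az → St_Bz → St_Dz → St_K2z → St_K4z → St_Ng → St_Cz := by
  intro hGz hEz hLz hAz hBz hDz hK2 hK4 hNg G ι _ _ s1 s2 f hZ hd hAS1 hAS2 hl hc2 hap hg1 hg2 hsep1 hsep2 hX1 hX2 hN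
  obtain ⟨l, hldef⟩ : ∃ l, l = s1.card := ⟨_, rfl⟩
  rw [← hldef] at hl hc2 hX1 hX2 hN
  obtain ⟨q, hq⟩ : ∃ q, q = l * (l + 1) := ⟨_, rfl⟩
  have hq5 : 5 * (l + 1) ≤ q := by
    rw [hq]
    exact Nat.mul_le_mul_right _ hl
  have e1 : (l + 1) * (l + 1 + 1) = q + 2 * l + 2 := by rw [hq]; ring
  have e2 : (l + 1) * (l + 1 - 1) = q := by rw [hq, Nat.add_sub_cancel]; ring
  have hs1 : s1 ⊆ s1 ∪ s2 := subset_union_left
  have hs2 : s2 ⊆ s1 ∪ s2 := subset_union_right
  have hA1p : Aper (FS s1 f) := (SDG.all_Ba1 G ι f).2.1 _ s1 hs1 hap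
  have hA2p : Aper (FS s2 f) := (SDG.all_Ba1 G ι f).2.1 _ s2 hs2 hap
  have hE1 := Cz_AE hs1 hap hAS1
  have hE2 := Cz_AE hs2 hap hAS2
  have hs1ne : s1.Nonempty := card_pos.1 (by omega)
  obtain ⟨g, hg⟩ : ∃ g : G, g ∉ FS (s1 ∪ s2) f := by
    refine Cz_exists (hs1ne.mono hs1) (fun i hi => ?_) hap
    rcases mem_union.1 hi with h | h
    · exact hAS1.1 i h
    · exact hAS2.1 i h
  obtain ⟨c, hc⟩ := Cz_compl hd hg (by omega)
  have hlam12 : ∀ z, lam (FS s2 f) z = lam (FS s1 f) z := Cz_lam _ _ c hc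
  have hlam1 : ∀ y ∈ sym s1 f, lam (FS s1 f) y + 1 ≤ l := by
    have h := hLz G ι s1 f hZ (by omega) hE1 hA1p hg1 hsep1 (by rw [← hldef]; exact hX1) (by omega)
    rw [← hldef] at h
    exact h
  have hlam2 : ∀ y ∈ sym s2 f, lam (FS s2 f) y + 1 ≤ l := by
    have h := hLz G ι s2 f hZ (by omega) hE2 hA2p hg2 hsep2 (by rw [hc2]; exact hX2) (by omega)
    rw [hc2] at h
    exact h
  obtain ⟨hSc, hS0, -, -, -, -, -⟩ := SSE.all_SyE G ι s1 f hE1
  rw [← hldef] at hSc
  by_cases hall : ∀ j ∈ s2, ∃ i ∈ s1, f j = f i ∨ f j = - f i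
  · -- (a)
    obtain ⟨c', hc'⟩ := hDz G ι s1 s2 f hAS1 hAS2 (by omega) hall
    have hgrow := hNg.2 G ι s1 f hZ (by omega) hE1 hA1p hg1 (by omega) (Or.inr (by omega))
    rw [← hldef] at hgrow
    rcases hgrow with h | h
    · omega
    · refine hBz G (FS s1 f) (sym s1 f) l (c' + c) hS0 hl hlam1 hX1 hN hSc h fun x hx => ?_
      have h1 : x + c' ∈ FS s2 f := by
        rw [hc', add_sub_cancel_right]
        exact hx
      have h2 := (hc _).1 h1
      rwa [add_assoc] at h2
  · -- (b)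
    push Not at hall
    obtain ⟨j, hj, hji⟩ := hall
    have hjs : j ∉ s1 := fun h => disjoint_left.1 hd h hj
    obtain ⟨u, hu⟩ : ∃ u, u = insert j s1 := ⟨_, rfl⟩
    have hASu : AS u f := by
      rw [hu]
      exact Cz_AS hAS1 (hAS2.1 j hj) hji
    have hus : u ⊆ s1 ∪ s2 := by
      rw [hu]
      exact insert_subset (hs2 hj) hs1
    have hEu := Cz_AE hus hap hASu
    have hApu : Aper (FS u f) := (SDG.all_Ba1 G ι f).2.1 _ u hus hap
    have hcu : u.card = l + 1 := by rw [hu, card_insert_of_notMem hjs, hldef]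
    have hgu : gen u f = ⊤ := by
      rw [eq_top_iff, ← hg1]
      refine AddSubgroup.closure_mono (Set.image_mono ?_)
      rw [hu]
      exact_mod_cast subset_insert j s1
    obtain ⟨hTc, hT0, -, -, hTl, -, -⟩ := SSE.all_SyE G ι u f hEu
    have hfj : f j ∈ sym s2 f := by
      unfold MDR.sym
      rw [mem_union, mem_union]
      exact Or.inr (Or.inl (mem_image_of_mem f hj))
    have hlj : lam (FS s1 f) (f j) + 1 ≤ l := by
      rw [← hlam12]
      exact hlam2 _ hfj
    have hlamu : ∀ y ∈ sym u f, lam (FS s1 f) y + 1 ≤ l := by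
      intro y hy
      have h := hTl (FS s1 f) (l - 1) (fun i hi => ?_) y hy
      · omega
      · rw [hu, mem_insert] at hi
        rcases hi with rfl | hi
        · omega
        · have h2 := hlam1 (f i) (by
            unfold MDR.sym
            rw [mem_union, mem_union]
            exact Or.inr (Or.inl (mem_image_of_mem f hi)))
          omega
    have hFu : (FS u f).card = (FS s1 f).card + lam (FS s1 f) (f j) := by
      rw [hu, FS_insert hjs, card_union_shift]
    have hsmall : 2 * (FS u f).card < 4 + u.card * (u.card + 1) := by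
      rw [hcu, e1]
      omega
    have hNu : u.card * (u.card - 1) + 2 ≤ Nat.card G := by
      rw [hcu, e2]
      omega
    obtain ⟨hR2, -, hG3, -, -, hG6, -⟩ := hGz G hZ
    rcases SSF.all_GRO G ι u f hR2 hZ.1 hEu hgu (by omega) (hEz G ι u f hZ).1 (by omega) with
      ⟨K, ⟨hKb, -, hst⟩, hK4c, hAPK⟩ | h
    · have hK1 : Nat.card K ≠ 1 := fun h => hKb (AddSubgroup.card_eq_one.1 h)
      have hK0 : Nat.card K ≠ 0 := Nat.card_pos.ne'
      have hK3 := hG3 K
      obtain h2 | h4 : Nat.card K = 2 ∨ Nat.card K = 4 := by omega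
      · have := hK2 G ι u f K hEu hApu (by omega) hst hAPK hNu h2
        omega
      · have := hK4 G ι u f K hEu hApu (by omega) hst hAPK hNu (hG6 K hK4c) h4
        omega
    · refine hAz G (FS s1 f) (sym u f) l hT0 hl hlamu hX1 hN (by rw [hTc, hcu]; ring) fun i hi => ?_
      rcases h i hi with h3 | h3 | ⟨h3, h4⟩
      · exact Or.inl h3
      · right
        left
        rw [hcu] at h3
        rw [show 2 * l + 4 = 2 * (l + 1) + 2 by ring]
        exact h3
      · right
        right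
        refine ⟨h3, ?_⟩
        rw [hcu] at h4
        omega

end Pool.Agent.SSZ
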