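import Pool.Agent.SSZ.St

/-!
# SSZ, module Dz: two halves with the same members (Lean: helper61)
-/

set_option autoImplicit false

noncomputable section

open Finset Pool.Agent.Helper64.Rho Pool.Agent.SDG Pool.Agent.MDR Pool.Agent.SSC Pool.Agent.SSE Pool.Agent.SSF
open scoped Classical Pointwise

namespace Pool.Agent.SSZ

private theorem Dz_FS {G ι : Type} [AddCommGroup G] (f : ι → G) (σ : ι → ι) (s : Finset ι)
    (hinj : ∀ i ∈ s, ∀ j ∈ s, σ i = σ j → i = j) (h : ∀ i ∈ s, f i = f (σ i) ∨ f i = - f (σ i)) :
    ∃ c : G, FS s f = (FS (s.image σ) f).image (· + c) := by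
  induction s using Finset.induction_on with
  | empty =>
    refine ⟨0, ?_⟩
    rw [image_empty, FS_empty, image_singleton, add_zero]
  | insert a s ha ih =>
    obtain ⟨c, hc⟩ := ih (fun i hi j hj => hinj i (mem_insert_of_mem hi) j (mem_insert_of_mem hj))
      fun i hi => h i (mem_insert_of_mem hi)
    have hσ : σ a ∉ s.image σ := by
      intro hm
      obtain ⟨b, hb, hb'⟩ := mem_image.1 hm
      have hab : b = a := hinj b (mem_insert_of_mem hb) a (mem_insert_self a s) hb'
      exact ha (hab ▸ hb)
    rcases h a (mem_insert_self a s) with h1 | h1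
    · refine ⟨c, ?_⟩
      rw [image_insert, FS_insert ha, FS_insert hσ, hc, image_union, image_image, image_image, h1]
      congr 1
      refine image_congr fun x _ => ?_
      simp only [Function.comp_apply]
      abel
    · refine ⟨c - f (σ a), ?_⟩
      rw [image_insert, FS_insert ha, FS_insert hσ, hc, image_union, image_image, image_image, h1, union_comm]
      congr 1
      · refine image_congr fun x _ => ?_
        simp only [Function.comp_apply]
        abel
      · refine image_congr fun x _ => ?_
        simp only [Function.comp_apply]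
        abel

/-- Two antisymmetric families of the same size, the members of the second are `±` members of the
first: the sets of sums are translates of each other. -/
theorem thm_Dz : St_Dz := by
  intro G ι _ s1 s2 f _ h2 hcard h
  choose! σ hσ1 hσ2 using h
  have hinj : ∀ i ∈ s2, ∀ j ∈ s2, σ i = σ j → i = j := by
    intro i hi j hj hij
    have h3 := h2.2 (f (σ i))
    have hi' : i ∈ s2.filter fun k => f k = f (σ i) ∨ f k = - f (σ i) :=
      mem_filter.2 ⟨hi, hσ2 i hi⟩
    have hj' : j ∈ s2.filter fun k => f k = f (σ i) ∨ f k = - f (σ i) := by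
      refine mem_filter.2 ⟨hj, ?_⟩
      rw [hij]
      exact hσ2 j hj
    exact card_le_one.1 h3 i hi' j hj'
  obtain ⟨c, hc⟩ := Dz_FS f σ s2 hinj hσ2
  have him : s2.image σ = s1 := by
    refine eq_of_subset_of_card_le ?_ ?_
    · intro x hx
      obtain ⟨j, hj, rfl⟩ := mem_image.1 hx
      exact hσ1 j hj
    · rw [card_image_of_injOn (fun i hi j hj hij => hinj i (mem_coe.1 hi) j (mem_coe.1 hj) hij), hcard]
  rw [him] at hc
  refine ⟨c, fun x => ?_⟩
  rw [hc, mem_image]
  constructor
  · rintro ⟨y, hy, rfl⟩
    rwa [add_sub_cancel_right]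
  · intro hx
    exact ⟨x - c, hx, sub_add_cancel x c⟩

end Pool.Agent.SSZ
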