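import Pool.Agent.SSZ.St
import Pool.Agent.SDG.All

/-!
# SSZ, module Ev: an even number of members (Lean: helper85)
-/

set_option autoImplicit false

noncomputable section

open Finset Pool.Agent.Helper64.Rho Pool.Agent.SDG Pool.Agent.MDR Pool.Agent.SSC Pool.Agent.SSE Pool.Agent.SSF
open scoped Classical Pointwise

namespace Pool.Agent.SSZ

private theorem Ev_AE {G ι : Type} [AddCommGroup G] {s u : Finset ι} {f : ι → G}
    (hus : u ⊆ s) (hap : Aper (FS s f)) (hA : AS u f) : AE u f := by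
  refine ⟨hA, fun i hi h => ?_⟩
  exact (SDG.all_Ba1 G ι f).2.2.2.2.1 s i (hus hi) hap (hA.1 i hi) (eq_neg_of_add_eq_zero_left h)

private theorem Ev_gen {G ι : Type} [AddCommGroup G] {u : Finset ι} {f : ι → G}
    (h : ∀ M : AddSubgroup G, M ≠ ⊤ → 1 ≤ (outs u f M).card) : gen u f = ⊤ := by
  by_contra hne
  have h1 := h _ hne
  have h2 : outs u f (gen u f) = ∅ := by
    unfold outs
    rw [filter_eq_empty_iff]
    intro i hi hni
    exact hni (AddSubgroup.subset_closure ⟨i, hi, rfl⟩)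
  rw [h2] at h1
  simp at h1

theorem thm_Ev : St_Gz → St_Ez → St_Ng → St_Hz → St_Nz → St_Kz → St_Cz → St_Ev := by
  intro _ _ hNg hHz hNz hKz hCz G ι _ _ l s f hl hC
  obtain ⟨s1, s2, hd, hu, hA1, hA2, hc1, hc2, hout, hS1, hS2, -⟩ := hHz G ι (2 * l) s f hC (by omega)
  obtain ⟨hZ, hst, hne, hcap, hap, hgen, hcf⟩ := hC
  have hs1 : s1 ⊆ s := by
    rw [← hu]
    exact subset_union_left
  have hs2 : s2 ⊆ s := by
    rw [← hu]
    exact subset_union_right
  have hE1 := Ev_AE hs1 hap hA1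
  have hE2 := Ev_AE hs2 hap hA2
  have hg1 : gen s1 f = ⊤ := Ev_gen fun M hM => (hout M hM).1
  have hg2 : gen s2 f = ⊤ := Ev_gen fun M hM => (hout M hM).2
  obtain ⟨b1, b2, -, -, -, -, -⟩ := SDG.all_Ba1 G ι f
  obtain ⟨k1, k2, -, k4⟩ := SDG.all_Kn G
  have hc1' : s1.card = l := by omega
  have hc2' : s2.card = l := by omega
  have e1 : FS s f = FS s1 f + FS s2 f := by
    rw [← hu]
    exact b1 s1 s2 hd
  have hap' : Aper (FS s1 f + FS s2 f) := e1 ▸ hap
  have n0 : (FS s f).Nonempty := ⟨0, zero_mem_FS s f⟩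
  have n1 : (FS s1 f).Nonempty := ⟨0, zero_mem_FS s1 f⟩
  have n2 : (FS s2 f).Nonempty := ⟨0, zero_mem_FS s2 f⟩
  have i1 := k1 _ _ n1 n2 hap'
  rw [← e1] at i1
  have hcf2 : cf 2 (2 * l) = 1 + l * (l + 1) := by
    rw [(SDG.all_Nm1).2.2.1 (2 * l)]
    have h1 : (2 * l + 1) ^ 2 = 4 * (l * (l + 1)) + 1 := by ring
    rw [h1]
    omega
  rw [hcf2] at hcf
  have htop : (⊤ : AddSubgroup G) ≠ ⊥ := by
    intro h7
    have hs : s.Nonempty := by
      rw [← card_pos]
      omega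
    obtain ⟨i, hi⟩ := hs
    have h8 : f i ∈ (⊥ : AddSubgroup G) := h7 ▸ AddSubgroup.mem_top (f i)
    exact hne i hi (AddSubgroup.mem_bot.1 h8)
  have i2 := k2 _ _ ⊤ n1 n2 htop (fun x _ => AddSubgroup.mem_top x) (fun x _ => AddSubgroup.mem_top x) hap'
  have i3 := k4 _ ⊤ n0 htop (fun x _ => AddSubgroup.mem_top x) hap
  have hct : Nat.card (⊤ : AddSubgroup G) = Nat.card G := AddSubgroup.card_top
  rw [hct] at i2 i3
  -- both parts have the same number of sums
  have j1 : 2 * (FS s1 f).card ≤ Nat.card G → 2 + l * (l + 1) ≤ 2 * (FS s1 f).card := by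
    intro h
    have h1 := (hNg.1 G ι s1 f hZ (by omega) hE1 (b2 s s1 hs1 hap) hg1 hS1 h).1
    rwa [hc1'] at h1
  have j2 : 2 * (FS s2 f).card ≤ Nat.card G → 2 + l * (l + 1) ≤ 2 * (FS s2 f).card := by
    intro h
    have h1 := (hNg.1 G ι s2 f hZ (by omega) hE2 (b2 s s2 hs2 hap) hg2 hS2 h).1
    rwa [hc2'] at h1
  have hll : 5 * (l + 1) ≤ l * (l + 1) := Nat.mul_le_mul_right _ hl
  obtain ⟨a1, a2, a3, a4⟩ : 2 * (FS s1 f).card = 2 + l * (l + 1) ∧ 2 * (FS s2 f).card = 2 + l * (l + 1) ∧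
      2 * (FS s1 f).card ≤ Nat.card G ∧ (FS s f).card + 1 = (FS s1 f).card + (FS s2 f).card := by
    rcases le_total (FS s1 f).card (FS s2 f).card with h | h
    · have h1 := j1 (by omega)
      omega
    · have h1 := j2 (by omega)
      omega
  rcases Nat.lt_or_ge ((FS s f).card + 1) (Nat.card G) with hlt | hge
  · refine hKz G (FS s1 f) (FS s2 f) hZ.1 (by omega) (by omega)
      (hNz G ι s1 f hZ (by omega) hE1 hg1 (by rw [hc1']; exact a1) a3) ?_ ?_
    · rw [← e1]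
      omega
    · rw [← e1]
      omega
  · refine hCz G ι s1 s2 f hZ hd hA1 hA2 (by omega) (by omega) (by rw [hu]; exact hap) hg1 hg2 hS1 hS2
      (by rw [hc1']; exact a1) (by rw [hc1']; exact a2) ?_
    rw [hc1']
    omega

end Pool.Agent.SSZ
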