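import Pool.Agent.SSZ.St

/-!
# SSZ, module Ez (helper52): dense cosets, exceptional families, special families in the groups `Z_2 × Z_2p`
-/

set_option autoImplicit false

noncomputable section

open Finset Pool.Agent.Helper64.Rho Pool.Agent.SDG Pool.Agent.MDR Pool.Agent.SSC Pool.Agent.SSE Pool.Agent.SSF
open scoped Classical Pointwise

namespace Pool.Agent.SSZ

theorem thm_Ez : St_Gz → St_Ez := by
  intro hGz G ι _ _ u f hG
  obtain ⟨-, -, h3, h4, h5, h6, -⟩ := hGz G hG
  refine ⟨?_, ?_, ?_⟩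
  · intro K c hK hc _
    have hKt : K ≠ ⊤ := by
      intro h
      exact hc (h ▸ AddSubgroup.mem_top _)
    rcases h4 K hK hKt with h | h | h | h
    · omega
    · omega
    · exact absurd (h5 K h c) hc
    · exact absurd (AddSubgroup.add_self_mem_of_index_two h c) hc
  · rintro ⟨K, a, hK, -⟩
    exact h3 K hK
  · rintro hAE K ⟨hK, -, hin, -⟩
    obtain ⟨i, hi⟩ := Finset.card_pos.1 (by omega : 0 < (ins u f K).card)
    obtain ⟨hiu, hiK⟩ := Finset.mem_filter.1 hi
    exact hAE.2 i hiu (h6 K (le_of_eq hK) (f i) hiK)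

end Pool.Agent.SSZ
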