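import Pool.Agent.SSZ.St

/-! # SSZ.FinZ (MP_ec93d3_co): the near-full case, parity split of `Ev` and `Od` -/

set_option autoImplicit false

noncomputable section

open Finset Pool.Agent.Helper64.Rho Pool.Agent.SDG Pool.Agent.MDR Pool.Agent.SSC Pool.Agent.SSE Pool.Agent.SSF
open scoped Classical Pointwise

namespace Pool.Agent.SSZ

theorem thm_FinZ : St_Ev → St_Od → St_FinZ := by
  intro hEv hOd G ι _ _ s f hZ h10 hne hcap hap hgen
  by_contra hlt
  have hle : (FS s f).card ≤ cf 2 s.card := by omega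
  rcases Nat.even_or_odd' s.card with ⟨l, hl | hl⟩
  · refine hEv G ι l s f (by omega) ⟨hZ, hl, hne, hcap, hap, hgen, ?_⟩
    rw [← hl]; exact hle
  · refine hOd G ι (l + 1) s f (by omega) ⟨hZ, by omega, hne, hcap, hap, hgen, ?_⟩
    have : 2 * (l + 1) - 1 = s.card := by omega
    rw [this]; exact hle

end Pool.Agent.SSZ
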