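import Pool.Agent.SSZ.St

/-!
# SSZ, part Gz: facts about the groups `Z_2 × Z_2p` (offer 16142, helper81)

`thm_Gz : St_Gz`.
-/

set_option autoImplicit false

noncomputable section

open Finset Pool.Agent.Helper64.Rho Pool.Agent.SDG Pool.Agent.MDR Pool.Agent.SSC Pool.Agent.SSE Pool.Agent.SSF
open scoped Classical Pointwise

namespace Pool.Agent.SSZ

/-- (2) no element of order 4 -/
private theorem Gz_two {G : Type} [AddCommGroup G] [Finite G] {p : ℕ} (hnc : ¬ IsAddCyclic G) (hp : p.Prime) (h5 : 5 ≤ p)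
    (hN : Nat.card G = 4 * p) (x : G) (hx : (4 : ℕ) • x = 0) : x + x = 0 := by
  by_contra hne
  apply hnc
  have h4 : addOrderOf x = 4 := by
    have h := addOrderOf_dvd_iff_nsmul_eq_zero.2 hx
    have h2 : ¬ addOrderOf x ∣ 2 := by
      intro h2
      apply hne
      rw [← two_nsmul]
      exact addOrderOf_dvd_iff_nsmul_eq_zero.1 h2
    have hle := Nat.le_of_dvd (by norm_num) h
    generalize addOrderOf x = n at *
    interval_cases n
    all_goals first | rfl | (exfalso; revert h h2; decide)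
  have hfact : Fact p.Prime := ⟨hp⟩
  have hdvd : p ∣ Nat.card G := by
    rw [hN]
    exact Dvd.intro_left 4 rfl
  obtain ⟨y, hy⟩ := exists_prime_addOrderOf_dvd_card' p hdvd
  have hco : Nat.Coprime (addOrderOf x) (addOrderOf y) := by
    rw [h4, hy]
    have h1 : Nat.Coprime 2 p := (Nat.coprime_primes Nat.prime_two hp).2 (by omega)
    have h2 : Nat.Coprime (2 ^ 2) p := Nat.Coprime.pow_left 2 h1
    exact h2
  have hxy := (AddCommute.all x y).addOrderOf_add_eq_mul_addOrderOf_of_coprime hco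
  exact isAddCyclic_of_addOrderOf_eq_card (x + y) (by rw [hxy, h4, hy, hN])

/-- the kernel of the multiplication by `q` -/
private def Gz_ker (G : Type) [AddCommGroup G] (q : ℕ) : AddSubgroup G := (nsmulAddMonoidHom (α := G) q).ker

private theorem Gz_mem_ker {G : Type} [AddCommGroup G] (q : ℕ) (x : G) : x ∈ Gz_ker G q ↔ q • x = 0 := by
  unfold Gz_ker
  rw [AddMonoidHom.mem_ker]
  rfl

/-- (1) rank at most two -/
private theorem Gz_R2 {G : Type} [AddCommGroup G] [Finite G] {p : ℕ} (hp : p.Prime) (h5 : 5 ≤ p)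
    (hN : Nat.card G = 4 * p) : R2 G := by
  intro q hq
  have h0 : Nat.card {x : G // q • x = 0} = Nat.card (Gz_ker G q) :=
    Nat.card_congr (Equiv.subtypeEquivRight fun x => (Gz_mem_ker q x).symm)
  rw [h0]
  have hdvd : Nat.card (Gz_ker G q) ∣ 4 * p := by
    rw [← hN]
    exact AddSubgroup.card_addSubgroup_dvd_card _
  have hpos : 0 < Nat.card (Gz_ker G q) := Nat.card_pos
  have hpow : Nat.card (Gz_ker G q) = q ^ (Nat.card (Gz_ker G q)).primeFactorsList.length := by
    refine Nat.eq_prime_pow_of_unique_prime_dvd (by omega) ?_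
    intro r hr hrd
    have hfact : Fact r.Prime := ⟨hr⟩
    obtain ⟨y, hy⟩ := exists_prime_addOrderOf_dvd_card' r hrd
    have h1 : q • y = 0 := by
      apply Subtype.ext
      have h2 := (Gz_mem_ker q (y : G)).1 y.2
      rw [AddSubgroup.coe_nsmul, AddSubgroup.coe_zero]
      exact h2
    have h2 := addOrderOf_dvd_iff_nsmul_eq_zero.2 h1
    rw [hy] at h2
    exact (Nat.prime_dvd_prime_iff_eq hr hq).1 h2
  generalize (Nat.card (Gz_ker G q)).primeFactorsList.length = k at hpow
  rw [hpow]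
  refine Nat.pow_le_pow_right hq.pos ?_
  by_contra hk
  have h3 : q ^ 3 ∣ 4 * p := by
    rw [hpow] at hdvd
    exact dvd_trans (pow_dvd_pow q (by omega)) hdvd
  rcases eq_or_ne q 2 with rfl | hq2
  · have h4 : 2 ∣ p := by omega
    have := (Nat.prime_dvd_prime_iff_eq Nat.prime_two hp).1 h4
    omega
  · have hco : Nat.Coprime (q ^ 3) (2 ^ 2) := Nat.Coprime.pow 3 2 ((Nat.coprime_primes hq Nat.prime_two).2 hq2)
    have h4 : q ^ 3 ∣ p := Nat.Coprime.dvd_of_dvd_mul_left hco h3
    have h5' : q ∣ p := dvd_trans (dvd_pow_self q (by norm_num)) h4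
    have h6 := (Nat.prime_dvd_prime_iff_eq hq hp).1 h5'
    subst h6
    have h7 := Nat.le_of_dvd hq.pos h4
    have h8 : q * 5 ≤ q * (q * q) := Nat.mul_le_mul_left q (by nlinarith)
    have h9 : q ^ 3 = q * (q * q) := by ring
    omega

/-- (3) -/
private theorem Gz_three {G : Type} [AddCommGroup G] [Finite G] {p : ℕ} (hp : p.Prime) (h5 : 5 ≤ p)
    (hN : Nat.card G = 4 * p) (K : AddSubgroup G) : Nat.card K ≠ 3 := by
  intro h
  have hdvd : Nat.card K ∣ 4 * p := by
    rw [← hN]
    exact AddSubgroup.card_addSubgroup_dvd_card _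
  rw [h] at hdvd
  have h1 : 3 ∣ p := by omega
  have := (Nat.prime_dvd_prime_iff_eq Nat.prime_three hp).1 h1
  omega

/-- (4) -/
private theorem Gz_four {G : Type} [AddCommGroup G] [Finite G] {p : ℕ} (hp : p.Prime)
    (hN : Nat.card G = 4 * p) (K : AddSubgroup G) (hb : K ≠ ⊥) (ht : K ≠ ⊤) :
    Nat.card K = 2 ∨ Nat.card K = 4 ∨ K.index = 4 ∨ K.index = 2 := by
  have hmul : Nat.card K * K.index = 4 * p := by
    rw [← hN]
    exact K.card_mul_index
  have h1 : Nat.card K ≠ 1 := fun h => hb (AddSubgroup.eq_bot_of_card_eq K h)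
  have h2 : K.index ≠ 1 := fun h => ht (AddSubgroup.index_eq_one.1 h)
  generalize Nat.card K = a at *
  generalize K.index = b at *
  have hpd : p ∣ a * b := by
    rw [hmul]
    exact Dvd.intro_left 4 rfl
  rcases (Nat.Prime.dvd_mul hp).1 hpd with ⟨c, hc⟩ | ⟨c, hc⟩
  · have h3 : c * b = 4 := by
      have : p * (c * b) = p * 4 := by
        rw [← mul_assoc, ← hc, hmul]
        ring
      exact Nat.eq_of_mul_eq_mul_left hp.pos this
    have h4 : b ∣ 4 := Dvd.intro_left c h3
    have h5 := Nat.le_of_dvd (by norm_num) h4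
    have h6 : b = 0 ∨ b = 1 ∨ b = 2 ∨ b = 3 ∨ b = 4 := by omega
    rcases h6 with rfl | rfl | rfl | rfl | rfl
    · omega
    · omega
    · right; right; right; rfl
    · omega
    · right; right; left; rfl
  · have h3 : a * c = 4 := by
      have : p * (a * c) = p * 4 := by
        calc p * (a * c) = a * (p * c) := by ring
          _ = p * 4 := by rw [← hc, hmul]; ring
      exact Nat.eq_of_mul_eq_mul_left hp.pos this
    have h4 : a ∣ 4 := Dvd.intro c h3
    have h5 := Nat.le_of_dvd (by norm_num) h4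
    have h6 : a = 0 ∨ a = 1 ∨ a = 2 ∨ a = 3 ∨ a = 4 := by omega
    rcases h6 with rfl | rfl | rfl | rfl | rfl
    · omega
    · omega
    · left; rfl
    · omega
    · right; left; rfl

/-- (5) -/
private theorem Gz_five {G : Type} [AddCommGroup G] [Finite G]
    (h2 : ∀ x : G, (4 : ℕ) • x = 0 → x + x = 0) (K : AddSubgroup G) (hK : K.index = 4) (x : G) : x + x ∈ K := by
  by_contra hne
  have h4 : addOrderOf (QuotientAddGroup.mk x : G ⧸ K) = 4 := by
    have h : addOrderOf (QuotientAddGroup.mk x : G ⧸ K) ∣ 4 := by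
      have h0 := addOrderOf_dvd_natCard (QuotientAddGroup.mk x : G ⧸ K)
      have h1 : Nat.card (G ⧸ K) = 4 := hK
      rwa [h1] at h0
    have h2 : ¬ addOrderOf (QuotientAddGroup.mk x : G ⧸ K) ∣ 2 := by
      intro h2
      apply hne
      rw [← two_nsmul]
      have h3 := addOrderOf_dvd_iff_nsmul_eq_zero.1 h2
      rw [← QuotientAddGroup.mk_nsmul] at h3
      exact (QuotientAddGroup.eq_zero_iff _).1 h3
    have hle := Nat.le_of_dvd (by norm_num) h
    generalize addOrderOf (QuotientAddGroup.mk x : G ⧸ K) = n at *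
    interval_cases n
    all_goals first | rfl | (exfalso; revert h h2; decide)
  have hd : 4 ∣ addOrderOf x := by
    rw [← h4]
    exact addOrderOf_map_dvd (QuotientAddGroup.mk' K) x
  obtain ⟨m, hm⟩ := hd
  have hpos : 0 < addOrderOf x := addOrderOf_pos x
  have h5 : (4 : ℕ) • (m • x) = 0 := by
    rw [smul_smul, ← hm]
    exact addOrderOf_nsmul_eq_zero x
  have h6 := h2 _ h5
  rw [← two_nsmul, smul_smul] at h6
  have h7 := addOrderOf_dvd_iff_nsmul_eq_zero.2 h6
  have h8 := Nat.le_of_dvd (by omega) h7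
  omega

/-- (6) -/
private theorem Gz_six {G : Type} [AddCommGroup G] [Finite G]
    (h2 : ∀ x : G, (4 : ℕ) • x = 0 → x + x = 0) (h3 : ∀ K : AddSubgroup G, Nat.card K ≠ 3)
    (K : AddSubgroup G) (hK : Nat.card K ≤ 4) (x : G) (hx : x ∈ K) : x + x = 0 := by
  apply h2
  have h4 := h3 K
  have hpos : 0 < Nat.card K := Nat.card_pos
  have h5 : addOrderOf x ∣ Nat.card K := AddSubgroup.addOrderOf_dvd_natCard K hx
  have h6 : Nat.card K ∣ 4 := by
    have h7 : Nat.card K = 1 ∨ Nat.card K = 2 ∨ Nat.card K = 4 := by omega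
    rcases h7 with h | h | h <;> rw [h] <;> norm_num
  exact addOrderOf_dvd_iff_nsmul_eq_zero.1 (dvd_trans h5 h6)

/-- **Gz** -/
theorem thm_Gz : St_Gz := by
  intro G _ _ hZ
  obtain ⟨hnc, p, hp, h5, hN⟩ := hZ
  have c1 : R2 G := Gz_R2 hp h5 hN
  have c2 : ∀ x : G, (4 : ℕ) • x = 0 → x + x = 0 := Gz_two hnc hp h5 hN
  have c3 : ∀ K : AddSubgroup G, Nat.card K ≠ 3 := Gz_three hp h5 hN
  have c4 : ∀ K : AddSubgroup G, K ≠ ⊥ → K ≠ ⊤ → (Nat.card K = 2 ∨ Nat.card K = 4 ∨ K.index = 4 ∨ K.index = 2) :=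
    Gz_four hp hN
  have c5 : ∀ K : AddSubgroup G, K.index = 4 → ∀ x : G, x + x ∈ K := Gz_five c2
  have c6 : ∀ K : AddSubgroup G, Nat.card K ≤ 4 → ∀ x ∈ K, x + x = 0 := Gz_six c2 c3
  refine ⟨c1, c2, c3, c4, c5, c6, ?_⟩
  have hker : Nat.card (Gz_ker G 2) ≤ 4 := by
    have h0 : Nat.card {x : G // 2 • x = 0} = Nat.card (Gz_ker G 2) :=
      Nat.card_congr (Equiv.subtypeEquivRight fun x => (Gz_mem_ker 2 x).symm)
    have h1 := c1 2 Nat.prime_two
    rw [h0] at h1
    exact h1
  set P : AddSubgroup G := (nsmulAddMonoidHom (α := G) 2).range with hP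
  have hPmem : ∀ x : G, x + x ∈ P := by
    intro x
    rw [hP, AddMonoidHom.mem_range]
    exact ⟨x, two_nsmul x⟩
  have hidx : Nat.card P * Nat.card (Gz_ker G 2) = 4 * p := by
    have h1 : Nat.card P = (Gz_ker G 2).index := by
      have := AddSubgroup.index_ker (nsmulAddMonoidHom (α := G) 2)
      exact this.symm
    rw [h1, mul_comm, AddSubgroup.card_mul_index, hN]
  have hodd : ¬ 2 ∣ Nat.card P := by
    intro h
    have hfact : Fact (Nat.Prime 2) := ⟨Nat.prime_two⟩
    obtain ⟨y, hy⟩ := exists_prime_addOrderOf_dvd_card' 2 h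
    obtain ⟨x, hx⟩ := y.2
    have hx' : (y : G) = x + x := by
      rw [← hx]
      exact two_nsmul x
    have hy2 : addOrderOf (y : G) = 2 := by
      rw [AddSubgroup.addOrderOf_coe, hy]
    have h4 : (4 : ℕ) • x = 0 := by
      have h5 : (2 : ℕ) • (y : G) = 0 := by
        rw [← hy2]
        exact addOrderOf_nsmul_eq_zero _
      rw [hx', ← two_nsmul, smul_smul] at h5
      exact h5
    have h6 := c2 x h4
    rw [← hx'] at h6
    rw [h6, addOrderOf_zero] at hy2
    omega
  have hPcard : Nat.card P = p := by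
    have hpos : 0 < Nat.card P := Nat.card_pos
    have hd : Nat.card P ∣ 4 * p := Dvd.intro _ hidx
    have hco : Nat.Coprime (Nat.card P) (2 ^ 2) := by
      apply Nat.Coprime.pow_right
      rw [Nat.coprime_comm]
      exact (Nat.Prime.coprime_iff_not_dvd Nat.prime_two).2 hodd
    have hdp : Nat.card P ∣ p := Nat.Coprime.dvd_of_dvd_mul_left hco hd
    rcases (Nat.dvd_prime hp).1 hdp with h | h
    · rw [h] at hidx
      omega
    · exact h
  have hPi : P.index = 4 := by
    have h1 := P.card_mul_index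
    rw [hPcard, hN, mul_comm 4 p] at h1
    exact Nat.eq_of_mul_eq_mul_left hp.pos h1
  have hle : ∀ K : AddSubgroup G, (∀ x : G, x + x ∈ K) → P ≤ K := by
    intro K hK y hy
    obtain ⟨x, hx⟩ := hy
    rw [← hx]
    have := hK x
    rw [← two_nsmul] at this
    exact this
  refine ⟨P, hPi, hPmem, ?_, ?_⟩
  · intro K hK
    have h1 : P ≤ K := hle K (c5 K hK)
    have h2 : Nat.card K = p := by
      have h3 := K.card_mul_index
      rw [hK, hN, mul_comm (Nat.card K) 4] at h3
      exact Nat.eq_of_mul_eq_mul_left (by norm_num) h3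
    exact (AddSubgroup.eq_of_le_of_card_ge h1 (by rw [h2, hPcard])).symm
  · intro K hK
    exact hle K (fun x => AddSubgroup.add_self_mem_of_index_two hK x)

end Pool.Agent.SSZ
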