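import Pool.Agent.SSZ.St
import Pool.Agent.SSF.Fin

/-!
# SSZ, module Hz: the halves (Lean: helper3)
-/

set_option autoImplicit false

noncomputable section

open Finset Pool.Agent.Helper64.Rho Pool.Agent.SDG Pool.Agent.MDR Pool.Agent.SSC Pool.Agent.SSE Pool.Agent.SSF
open scoped Classical Pointwise

namespace Pool.Agent.SSZ

private lemma Hz_split {G ι : Type} [AddCommGroup G] (s : Finset ι) (f : ι → G)
    (M : AddSubgroup G) : (ins s f M).card + (outs s f M).card = s.card :=
  card_filter_add_card_filter_not (s := s) (fun i => f i ∈ M)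

private lemma Hz_union {G ι : Type} [AddCommGroup G] {p r s : Finset ι} (hd : Disjoint p r)
    (hu : p ∪ r = s) (f : ι → G) (M : AddSubgroup G) :
    (ins p f M).card + (ins r f M).card = (ins s f M).card ∧
      (outs p f M).card + (outs r f M).card = (outs s f M).card := by
  subst hu
  unfold ins outs
  rw [filter_union, filter_union, card_union_of_disjoint, card_union_of_disjoint]
  · exact ⟨rfl, rfl⟩
  · exact disjoint_filter_filter hd
  · exact disjoint_filter_filter hd

/-- the classes modulo `P` -/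
private lemma Hz_kappa {G : Type} [AddCommGroup G] [Finite G] (P : AddSubgroup G)
    (hP4 : P.index = 4) (hPd : ∀ x : G, x + x ∈ P)
    (hP2 : ∀ K : AddSubgroup G, K.index = 2 → P ≤ K) :
    ∃ κ : G → ℕ, (∀ x, κ (-x) = κ x) ∧ (∀ x, κ x < 4) ∧
      (∀ x y z, κ x = κ y → κ (x + z) = κ (y + z)) ∧
      (∀ M : AddSubgroup G, M.index = 2 → ∀ x y, κ x = κ y → (x ∈ M ↔ y ∈ M)) := by
  let _ : Fintype (G ⧸ P) := Fintype.ofFinite _
  have hcard : Fintype.card (G ⧸ P) ≤ Fintype.card (Fin 4) := by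
    rw [← Nat.card_eq_fintype_card, Fintype.card_fin]
    exact hP4.le
  obtain ⟨e⟩ : Nonempty ((G ⧸ P) ↪ Fin 4) := Function.Embedding.nonempty_of_card_le hcard
  refine ⟨fun x => ((e (x : G ⧸ P) : Fin 4) : ℕ), ?_, ?_, ?_, ?_⟩
  · intro x
    have h1 : ((-x : G) : G ⧸ P) = (x : G ⧸ P) := by
      rw [QuotientAddGroup.eq, neg_neg]
      exact hPd x
    simp only [h1]
  · intro x
    exact (e _).2
  · intro x y z h
    have h1 : (x : G ⧸ P) = (y : G ⧸ P) := e.injective (Fin.ext h)
    have h2 : ((x + z : G) : G ⧸ P) = ((y + z : G) : G ⧸ P) := by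
      rw [QuotientAddGroup.mk_add, h1, ← QuotientAddGroup.mk_add]
    simp only [h2]
  · intro M hM x y h
    have hz : -x + y ∈ P := QuotientAddGroup.eq.1 (e.injective (Fin.ext h))
    have h2 : -x + y ∈ M := hP2 M hM hz
    constructor
    · intro hx
      have h3 := M.add_mem hx h2
      rwa [add_neg_cancel_left] at h3
    · intro hy
      have h3 := M.sub_mem hy h2
      have e1 : y - (-x + y) = x := by abel
      rwa [e1] at h3

private lemma Hz_img {G : Type} [AddCommGroup G] (κ : G → ℕ)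
    (hk : ∀ x y z, κ x = κ y → κ (x + z) = κ (y + z)) (S1 S2 : Finset G) (g : G)
    (h : ∀ x ∈ S1, x + g ∈ S2) : (S1.image κ).card ≤ (S2.image κ).card := by
  let θ : ℕ → ℕ := fun c => if hc : ∃ x ∈ S1, κ x = c then κ (hc.choose + g) else 0
  have hθ : ∀ c ∈ S1.image κ, ∃ x ∈ S1, κ x = c ∧ θ c = κ (x + g) := by
    intro c hc
    have hc' : ∃ x ∈ S1, κ x = c := mem_image.1 hc
    refine ⟨hc'.choose, hc'.choose_spec.1, hc'.choose_spec.2, ?_⟩
    simp only [θ, dif_pos hc']
  refine card_le_card_of_injOn θ ?_ ?_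
  · intro c hc
    obtain ⟨x, hx, -, hx2⟩ := hθ c hc
    rw [hx2]
    exact mem_coe.2 (mem_image_of_mem κ (h x hx))
  · intro c hc c' hc' hcc
    obtain ⟨x, hx, hx1, hx2⟩ := hθ c hc
    obtain ⟨x', hx', hx1', hx2'⟩ := hθ c' hc'
    have e1 : κ (x + g) = κ (x' + g) := by rw [← hx2, ← hx2']; exact hcc
    have e2 := hk _ _ (-g) e1
    rw [add_neg_cancel_right, add_neg_cancel_right] at e2
    rw [← hx1, ← hx1', e2]

/-- at most two classes in and at most two classes outside a subgroup of index 2 -/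
private lemma Hz_two {G : Type} [AddCommGroup G] [Finite G] (κ : G → ℕ) (h4 : ∀ x, κ x < 4)
    (hk : ∀ x y z, κ x = κ y → κ (x + z) = κ (y + z)) (M : AddSubgroup G) (hM : M.index = 2)
    (hkM : ∀ x y, κ x = κ y → (x ∈ M ↔ y ∈ M)) :
    ∃ V W : Finset ℕ, V.card ≤ 2 ∧ W.card ≤ 2 ∧ (∀ x, x ∉ M → κ x ∈ V) ∧ (∀ x, x ∈ M → κ x ∈ W) := by
  let _ : Fintype G := Fintype.ofFinite G
  obtain ⟨g, hg⟩ : ∃ g, g ∉ M := by
    by_contra hcon
    push Not at hcon
    have h1 : M = ⊤ := by
      rw [eq_top_iff]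
      intro x _
      exact hcon x
    rw [h1, AddSubgroup.index_top] at hM
    omega
  set A := (univ : Finset G).filter (fun x => x ∉ M) with hA
  set B := (univ : Finset G).filter (fun x => x ∈ M) with hB
  have h1 : (A.image κ).card ≤ (B.image κ).card := by
    refine Hz_img κ hk A B g fun x hx => ?_
    have hx' := (mem_filter.1 hx).2
    refine mem_filter.2 ⟨mem_univ _, ?_⟩
    rw [AddSubgroup.add_mem_iff_of_index_two hM]
    exact ⟨fun h => absurd h hx', fun h => absurd h hg⟩
  have h2 : (B.image κ).card ≤ (A.image κ).card := by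
    refine Hz_img κ hk B A g fun x hx => ?_
    have hx' := (mem_filter.1 hx).2
    refine mem_filter.2 ⟨mem_univ _, ?_⟩
    intro h
    exact hg ((AddSubgroup.add_mem_cancel_left M hx').1 h)
  have hd : Disjoint (A.image κ) (B.image κ) := by
    rw [disjoint_left]
    intro c hc hc'
    obtain ⟨x, hx, hx1⟩ := mem_image.1 hc
    obtain ⟨y, hy, hy1⟩ := mem_image.1 hc'
    exact (mem_filter.1 hx).2 ((hkM x y (hx1.trans hy1.symm)).2 (mem_filter.1 hy).2)
  have hs : A.image κ ∪ B.image κ ⊆ range 4 := by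
    intro c hc
    rw [mem_union] at hc
    rw [mem_range]
    rcases hc with hc | hc <;> obtain ⟨x, -, rfl⟩ := mem_image.1 hc <;> exact h4 x
  have h5 := card_le_card hs
  rw [card_union_of_disjoint hd, card_range] at h5
  exact ⟨A.image κ, B.image κ, by omega, by omega,
    fun x hx => mem_image_of_mem κ (mem_filter.2 ⟨mem_univ _, hx⟩),
    fun x hx => mem_image_of_mem κ (mem_filter.2 ⟨mem_univ _, hx⟩)⟩

private lemma Hz_cnt {G ι : Type} [AddCommGroup G] (κ : G → ℕ) (s1 s2 : Finset ι) (f : ι → G)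
    (P : G → Prop) [DecidablePred P] (hP : ∀ x y, κ x = κ y → (P x ↔ P y)) (V : Finset ℕ)
    (hV : ∀ x, P x → κ x ∈ V)
    (hb : ∀ c : ℕ, (s1.filter fun i => κ (f i) = c).card ≤ (s2.filter fun i => κ (f i) = c).card + 1) :
    (s1.filter fun i => P (f i)).card ≤ (s2.filter fun i => P (f i)).card + V.card := by
  have e0 : ∀ s : Finset ι, (s.filter fun i => P (f i)).card =
      ∑ c ∈ V, ((s.filter fun i => P (f i)).filter fun i => κ (f i) = c).card := by
    intro s
    refine card_eq_sum_card_fiberwise (f := fun i => κ (f i)) fun i hi => ?_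
    exact mem_coe.2 (hV _ (mem_filter.1 (mem_coe.1 hi)).2)
  rw [e0 s1, e0 s2, card_eq_sum_ones, ← sum_add_distrib]
  refine sum_le_sum fun c _ => ?_
  by_cases h : ∃ x, P x ∧ κ x = c
  · obtain ⟨x, hx, hxc⟩ := h
    have e1 : ∀ s : Finset ι, ((s.filter fun i => P (f i)).filter fun i => κ (f i) = c) =
        s.filter fun i => κ (f i) = c := by
      intro s
      rw [filter_filter]
      refine filter_congr fun i _ => ⟨fun h => h.2, fun h => ⟨?_, h⟩⟩
      exact (hP (f i) x (h.trans hxc.symm)).2 hx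
    rw [e1 s1, e1 s2]
    exact hb c
  · have e1 : ((s1.filter fun i => P (f i)).filter fun i => κ (f i) = c) = ∅ := by
      rw [filter_filter, filter_eq_empty_iff]
      exact fun i _ h2 => h ⟨f i, h2.1, h2.2⟩
    rw [e1, card_empty]
    exact Nat.zero_le _

/-- an element outside `P` and `P` generate a subgroup of index 2 -/
private lemma Hz_i2 {G : Type} [AddCommGroup G] [Finite G] (P : AddSubgroup G)
    (hP4 : P.index = 4) (hPd : ∀ x : G, x + x ∈ P) (g : G) (hg : g ∉ P) :
    (P ⊔ AddSubgroup.zmultiples g).index = 2 := by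
  have hgM : g ∈ P ⊔ AddSubgroup.zmultiples g :=
    AddSubgroup.mem_sup_right (AddSubgroup.mem_zmultiples g)
  have h1 : P.relIndex (P ⊔ AddSubgroup.zmultiples g) = 2 := by
    rw [AddSubgroup.relIndex_eq_two_iff_exists_notMem_and]
    refine ⟨g, hgM, hg, fun b hb => ?_⟩
    obtain ⟨m, hm, z, hz, rfl⟩ := AddSubgroup.mem_sup.1 hb
    obtain ⟨k, rfl⟩ := AddSubgroup.mem_zmultiples_iff.1 hz
    rcases Int.even_or_odd k with ⟨j, hj⟩ | ⟨j, hj⟩
    · right
      rw [hj, add_zsmul]
      exact P.add_mem hm (hPd _)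
    · left
      have e1 : m + k • g + g = m + ((j + 1) • g + (j + 1) • g) := by
        rw [hj]
        module
      rw [e1]
      exact P.add_mem hm (hPd _)
  have h2 := AddSubgroup.relIndex_mul_index (H := P) (K := P ⊔ AddSubgroup.zmultiples g) le_sup_left
  rw [h1, hP4] at h2
  omega

/-- if members are outside all subgroups of index 2 then two members are outside `P` -/
private lemma Hz_i4 {G ι : Type} [AddCommGroup G] [Finite G] (P : AddSubgroup G)
    (hP4 : P.index = 4) (hPd : ∀ x : G, x + x ∈ P) (u : Finset ι) (f : ι → G)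
    (h : ∀ M : AddSubgroup G, M.index = 2 → 1 ≤ (outs u f M).card) : 2 ≤ (outs u f P).card := by
  obtain ⟨g, hg⟩ : ∃ g, g ∉ P := by
    by_contra hcon
    push Not at hcon
    have h1 : P = ⊤ := by
      rw [eq_top_iff]
      intro x _
      exact hcon x
    rw [h1, AddSubgroup.index_top] at hP4
    omega
  obtain ⟨x, hx⟩ := card_pos.1 (h _ (Hz_i2 P hP4 hPd g hg))
  obtain ⟨hxu, hxM⟩ := mem_filter.1 hx
  have hxP : f x ∉ P := fun h' => hxM (AddSubgroup.mem_sup_left h')
  obtain ⟨y, hy⟩ := card_pos.1 (h _ (Hz_i2 P hP4 hPd (f x) hxP))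
  obtain ⟨hyu, hyM⟩ := mem_filter.1 hy
  have hyP : f y ∉ P := fun h' => hyM (AddSubgroup.mem_sup_left h')
  have hne : x ≠ y := by
    rintro rfl
    exact hyM (AddSubgroup.mem_sup_right (AddSubgroup.mem_zmultiples _))
  have hsub : ({x, y} : Finset ι) ⊆ outs u f P := by
    intro i hi
    rw [mem_insert, mem_singleton] at hi
    rcases hi with rfl | rfl
    · exact mem_filter.2 ⟨hxu, hxP⟩
    · exact mem_filter.2 ⟨hyu, hyP⟩
  have h3 := card_le_card hsub
  rwa [card_pair hne] at h3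

theorem thm_Hz : St_Gz → St_Iz → St_Hz := by
  intro hGz hIz G ι _ _ t s f hC ht
  have hC' := hC
  obtain ⟨hZ, hcard, hne, hcap, hap, -, -⟩ := hC'
  obtain ⟨-, -, -, g4, -, g6, P, hP4, hPd, hPu, hP2⟩ := hGz G hZ
  obtain ⟨-, -, -, -, hB5, -, -⟩ := SDG.all_Ba1 G ι f
  obtain ⟨κ, k1, k2, k3, k4⟩ := Hz_kappa P hP4 hPd hP2
  obtain ⟨s1, s2, hd, hun, hA1, hA2, hc1, hc2, hb⟩ := SSF.all_SpF G ι s f κ hne hcap k1
  rw [hcard] at hc1 hc2
  have hsub1 : s1 ⊆ s := by
    rw [← hun]
    exact subset_union_left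
  have hsub2 : s2 ⊆ s := by
    rw [← hun]
    exact subset_union_right
  -- index 2
  have cl2 : ∀ M : AddSubgroup G, M.index = 2 →
      1 ≤ (outs s1 f M).card ∧ 1 ≤ (outs s2 f M).card ∧ (t % 2 = 1 → 2 ≤ (outs s1 f M).card) := by
    intro M hM
    have h4 := hIz G ι t s f M hC ht hM
    obtain ⟨-, u2⟩ := Hz_union hd hun f M
    obtain ⟨V, W, hV2, hW2, hV, hW⟩ := Hz_two κ k2 k3 M hM (k4 M hM)
    have a1 : (outs s1 f M).card ≤ (outs s2 f M).card + V.card :=
      Hz_cnt κ s1 s2 f (fun x => x ∉ M) (fun x y h => not_congr (k4 M hM x y h)) V hV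
        (fun c => (hb c).1)
    have a2 : (outs s2 f M).card ≤ (outs s1 f M).card + V.card :=
      Hz_cnt κ s2 s1 f (fun x => x ∉ M) (fun x y h => not_congr (k4 M hM x y h)) V hV
        (fun c => (hb c).2)
    have a3 : (ins s1 f M).card ≤ (ins s2 f M).card + W.card :=
      Hz_cnt κ s1 s2 f (fun x => x ∈ M) (fun x y h => k4 M hM x y h) W hW
        (fun c => (hb c).1)
    have b1 := Hz_split s1 f M
    have b2 := Hz_split s2 f M
    refine ⟨by omega, by omega, fun h => by omega⟩
  -- subgroups that contain no member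
  have cl0 : ∀ (u : Finset ι) (M : AddSubgroup G), u ⊆ s → t / 2 ≤ u.card → (∀ i ∈ s, f i ∉ M) →
      2 ≤ (outs u f M).card := by
    intro u M hu hcu hM
    have e1 : outs u f M = u := by
      unfold outs
      rw [filter_eq_self]
      exact fun i hi => hM i (hu hi)
    rw [e1]
    omega
  have clm : ∀ M : AddSubgroup G, M ≠ ⊤ → M.index = 2 ∨
      (2 ≤ (outs s1 f M).card ∧ 2 ≤ (outs s2 f M).card) := by
    intro M hM
    by_cases hbot : M = ⊥
    · right
      have h1 : ∀ i ∈ s, f i ∉ M := by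
        intro i hi h
        rw [hbot, AddSubgroup.mem_bot] at h
        exact hne i hi h
      exact ⟨cl0 s1 M hsub1 (by omega) h1, cl0 s2 M hsub2 (by omega) h1⟩
    · have hsmall : Nat.card M ≤ 4 → 2 ≤ (outs s1 f M).card ∧ 2 ≤ (outs s2 f M).card := by
        intro h4
        have h1 : ∀ i ∈ s, f i ∉ M := by
          intro i hi h
          exact hB5 s i hi hap (hne i hi) (eq_neg_of_add_eq_zero_left (g6 M h4 (f i) h))
        exact ⟨cl0 s1 M hsub1 (by omega) h1, cl0 s2 M hsub2 (by omega) h1⟩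
      rcases g4 M hbot hM with h | h | h | h
      · exact Or.inr (hsmall (by omega))
      · exact Or.inr (hsmall (by omega))
      · right
        rw [hPu M h]
        exact ⟨Hz_i4 P hP4 hPd s1 f fun M' hM' => (cl2 M' hM').1,
          Hz_i4 P hP4 hPd s2 f fun M' hM' => (cl2 M' hM').2.1⟩
      · exact Or.inl h
  refine ⟨s1, s2, hd, hun, hA1, hA2, hc1, hc2, ?_, ?_, ?_, ?_⟩
  · intro M hM
    rcases clm M hM with h | h
    · exact ⟨(cl2 M h).1, (cl2 M h).2.1⟩
    · exact ⟨by omega, by omega⟩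
  · intro M hM hM2
    exact ((clm M hM).resolve_left hM2).1
  · intro M hM hM2
    exact ((clm M hM).resolve_left hM2).2
  · intro h M hM
    rcases clm M hM with h' | h'
    · exact (cl2 M h').2.2 h
    · exact h'.1

end Pool.Agent.SSZ
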