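import Pool.Agent.SSZ.St
import Pool.Agent.SSF.Fin

/-!
# SSZ, module Iz: at least four members outside a subgroup of index 2 (Lean: helper34)
-/

set_option autoImplicit false

noncomputable section

open Finset Pool.Agent.Helper64.Rho Pool.Agent.SDG Pool.Agent.MDR Pool.Agent.SSC Pool.Agent.SSE Pool.Agent.SSF
open scoped Classical Pointwise

namespace Pool.Agent.SSZ

private theorem Iz_num {t : ℕ} (ht : 10 ≤ t) : 1 + (t + 1) ^ 2 / 4 < 2 * (1 + (t - 3 + 1) ^ 2 / 4) := by
  obtain ⟨k, rfl⟩ : ∃ k, t = k + 10 := ⟨t - 10, by omega⟩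
  have h1 : k + 10 - 3 + 1 = k + 8 := by omega
  rw [h1]
  have h2 : (k + 10 + 1) ^ 2 = k * k + 22 * k + 121 := by ring
  have h3 : (k + 8) ^ 2 = k * k + 16 * k + 64 := by ring
  rw [h2, h3]
  have h4 : 0 ≤ k * k := Nat.zero_le _
  generalize k * k = q at h4 ⊢
  omega

theorem thm_Iz : St_Gz → St_Iz := by
  intro hGz G ι _ _ t s f M hctx ht hM
  obtain ⟨hZ, hst, hf0, hcap, hap, hgen, hcf⟩ := hctx
  obtain ⟨-, hB2, -, -, -, -, hB7⟩ := SDG.all_Ba1 G ι f
  have hR2 := (hGz G hZ).1
  by_contra hcon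
  -- a member outside
  have hMt : M ≠ ⊤ := by
    intro h
    rw [h, AddSubgroup.index_top] at hM
    omega
  have hout : ∃ i ∈ s, f i ∉ M := by
    by_contra h
    push Not at h
    apply hMt
    rw [eq_top_iff, ← hgen]
    unfold gen
    rw [AddSubgroup.closure_le]
    rintro _ ⟨i, hi, rfl⟩
    exact h i hi
  obtain ⟨i, hi, hiM⟩ := hout
  have hsub : ins s f M ⊆ s := filter_subset _ _
  have hY := SSF.PAG_R2 G hR2 ι (ins s f M) f (fun j hj => hf0 j (hsub hj))
    (fun x => (card_le_card (filter_subset_filter _ hsub)).trans (hcap x))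
    (hB2 s (ins s f M) hsub hap)
  have hcard : (ins s f M).card + (outs s f M).card = t := by
    rw [← hst]
    exact card_filter_add_card_filter_not _
  -- the sums
  set Y := FS (ins s f M) f with hYdef
  have hYM : ∀ y ∈ Y, y ∈ M := by
    intro y hy
    have h1 := hB7 (ins s f M) y hy
    have h2 : gen (ins s f M) f ≤ M := by
      unfold gen
      rw [AddSubgroup.closure_le]
      rintro _ ⟨j, hj, rfl⟩
      exact (mem_filter.1 hj).2
    exact h2 h1
  have hYT : Y ⊆ FS s f := by
    intro y hy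
    obtain ⟨t', ht', hs'⟩ := mem_FS.1 hy
    exact mem_FS.2 ⟨t', ht'.trans hsub, hs'⟩
  have hYT2 : (Y.image fun y => y + f i) ⊆ FS s f := by
    intro y hy
    obtain ⟨z, hz, rfl⟩ := mem_image.1 hy
    obtain ⟨t', ht', hs'⟩ := mem_FS.1 hz
    have hit : i ∉ t' := fun h => hiM (mem_filter.1 (ht' h)).2
    refine mem_FS.2 ⟨insert i t', ?_, ?_⟩
    · intro j hj
      rcases mem_insert.1 hj with h | h
      · rw [h]; exact hi
      · exact hsub (ht' h)
    · rw [sum_insert hit, hs', add_comm]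
  have hdis : Disjoint Y (Y.image fun y => y + f i) := by
    rw [disjoint_left]
    intro y hy hy2
    obtain ⟨z, hz, hzy⟩ := mem_image.1 hy2
    apply hiM
    have h1 := M.sub_mem (hYM y hy) (hYM z hz)
    rwa [← hzy, add_sub_cancel_left] at h1
  have hcT : Y.card + Y.card ≤ (FS s f).card := by
    have h1 : (Y.image fun y => y + f i).card = Y.card :=
      card_image_of_injective _ (add_left_injective _)
    calc Y.card + Y.card = Y.card + (Y.image fun y => y + f i).card := by rw [h1]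
      _ = (Y ∪ (Y.image fun y => y + f i)).card := (card_union_of_disjoint hdis).symm
      _ ≤ (FS s f).card := card_le_card (union_subset hYT hYT2)
  have hmono : cf 2 (t - 3) ≤ cf 2 (ins s f M).card := (SDG.all_Nm1).2.2.2.1 2 _ _ (by omega)
  have hcf1 := (SDG.all_Nm1).2.2.1 t
  have hcf2 := (SDG.all_Nm1).2.2.1 (t - 3)
  have hnum := Iz_num ht
  rw [hcf1] at hcf
  rw [hcf2] at hmono
  omega

end Pool.Agent.SSZ
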