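import Pool.Agent.SSZ.St
import Pool.Agent.SSE.Main

/-!
# SSZ K2z: nearly filled by the group of order two, weaker hypothesis on the order (helper30)
-/

set_option autoImplicit false

noncomputable section

open Finset Pool.Agent.Helper64.Rho Pool.Agent.SDG Pool.Agent.MDR Pool.Agent.SSC Pool.Agent.SSE Pool.Agent.SSF
open scoped Classical Pointwise

namespace Pool.Agent.SSZ

/-- the weighted sum of the levels below `n`, every level has two members -/
private theorem K2z_fib {ι : Type} (o : Finset ι) (lv : ι → ℕ) (a : ℕ)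
    (h2 : ∀ k, 1 ≤ k → k ≤ a → (o.filter fun j => lv j = k).card = 2) (n : ℕ) (hn : n ≤ a + 1) :
    ∑ j ∈ o.filter (fun j => lv j < n), lv j = n * (n - 1) := by
  rw [← Finset.sum_fiberwise_of_maps_to (g := lv) (t := range n)
    (fun j hj => mem_range.2 (mem_filter.1 hj).2)]
  have e1 : ∑ k ∈ range n, ∑ j ∈ (o.filter fun j => lv j < n).filter (fun j => lv j = k), lv j =
      ∑ k ∈ range n, k * 2 := by
    apply sum_congr rfl
    intro k hk
    have hk' := mem_range.1 hk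
    have h0 : (o.filter fun j => lv j < n).filter (fun j => lv j = k) =
        o.filter fun j => lv j = k := by
      ext j
      simp only [mem_filter]
      constructor
      · rintro ⟨⟨x, _⟩, z⟩
        exact ⟨x, z⟩
      · rintro ⟨x, z⟩
        exact ⟨⟨x, by omega⟩, z⟩
    rw [h0]
    have h1 : ∑ j ∈ o.filter (fun j => lv j = k), lv j = ∑ _j ∈ o.filter (fun j => lv j = k), k :=
      sum_congr rfl fun j hj => (mem_filter.1 hj).2
    rw [h1, sum_const, smul_eq_mul]
    rcases Nat.eq_zero_or_pos k with h4 | h4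
    · rw [h4, mul_zero, zero_mul]
    · rw [h2 k h4 (by omega), mul_comm]
  rw [e1, ← sum_mul]
  exact sum_range_id_mul_two n

/-- `2 a` members in the levels `1, ..., a`, at most two in each level -/
private theorem K2z_lvl {ι : Type} (o : Finset ι) (lv : ι → ℕ) (a : ℕ)
    (h1 : ∀ j ∈ o, 1 ≤ lv j ∧ lv j ≤ a)
    (h2 : ∀ k, 1 ≤ k → k ≤ a → (o.filter fun j => lv j = k).card ≤ 2) (h3 : a * 2 ≤ o.card) :
    o.card = a * 2 ∧ ∀ k, 1 ≤ k → k ≤ a → (o.filter fun j => lv j = k).card = 2 := by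
  have e1 : o.card = ∑ k ∈ Icc 1 a, (o.filter fun j => lv j = k).card :=
    card_eq_sum_card_fiberwise (f := lv) (s := o) (t := Icc 1 a) (fun j hj => by
      have := h1 j hj
      rw [mem_coe, mem_Icc]
      exact this)
  have e2 : ∑ k ∈ Icc 1 a, (o.filter fun j => lv j = k).card +
      ∑ k ∈ Icc 1 a, (2 - (o.filter fun j => lv j = k).card) = a * 2 := by
    rw [← sum_add_distrib]
    have : ∑ k ∈ Icc 1 a, ((o.filter fun j => lv j = k).card +
        (2 - (o.filter fun j => lv j = k).card)) = ∑ _k ∈ Icc 1 a, 2 := by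
      apply sum_congr rfl
      intro k hk
      rw [mem_Icc] at hk
      have := h2 k hk.1 hk.2
      omega
    rw [this, sum_const, Nat.card_Icc, smul_eq_mul]
    omega
  refine ⟨by omega, ?_⟩
  intro k k1 k2
  have e5 := single_le_sum (f := fun k => 2 - (o.filter fun j => lv j = k).card)
    (fun _ _ => Nat.zero_le _) (mem_Icc.2 ⟨k1, k2⟩)
  have q3 := h2 k k1 k2
  have e6 : 2 - (o.filter fun j => lv j = k).card ≤ 0 := by
    refine le_trans e5 ?_
    omega
  omega

/-- **K2z.** -/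
theorem thm_K2z : St_K2z := by
  have hSg : Pool.Agent.MDR.St_Sg := Pool.Agent.SSC.mdr_Sg
  have hLc : Pool.Agent.SSE.St_Lc := Pool.Agent.SSE.all_Lc
  have hF2 : Pool.Agent.SSE.St_F2 := Pool.Agent.SSE.all_F2
  have hCn : Pool.Agent.SSE.St_Cn := Pool.Agent.SSE.all_Cn
  intro G ι _ _ u f K hAE hAp h5 hst hAPK hN hK2
  obtain ⟨d, a, g, lv, hd, hg, hgl, hl0, hq1, hlva, hck, _, hb0, hal⟩ :=
    hLc G ι u f K hAE (by omega) (by omega) hst hAPK
  rw [hK2] at hck hal
  have hb := hb0 hK2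
  -- the index
  obtain ⟨q, hq⟩ : ∃ q, q = K.index := ⟨_, rfl⟩
  have hNq : Nat.card G = 2 * q := by
    rw [hq, ← hK2]
    exact (AddSubgroup.card_mul_index K).symm
  rw [← hq] at hq1
  have hlv1 : ∀ j ∈ u, 1 ≤ lv j ∧ lv j ≤ a := by
    intro j hj
    refine ⟨?_, hlva j hj⟩
    rcases Nat.eq_zero_or_pos (lv j) with h2 | h2
    · exfalso
      have h3 : j ∈ ins u f K := mem_filter.2 ⟨hj, (hl0 j).1 h2⟩
      rw [card_eq_zero] at hb
      rw [hb] at h3
      exact notMem_empty j h3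
    · exact h2
  obtain ⟨hua, hc2⟩ := K2z_lvl u lv a hlv1 hck hal
  have ha3 : 3 ≤ a := by omega
  obtain ⟨sg1, sgA, _, _, _, sg2, _, _⟩ := hSg G ι u f g (fun j _ => hg j)
  have hASg := sg2 hAE.1
  have hApg := sgA hAp
  obtain ⟨m, hm⟩ : ∃ m, m = ∑ j ∈ u, lv j := ⟨_, rfl⟩
  have hm2 : m = (a + 1) * a := by
    have e := K2z_fib u lv a hc2 (a + 1) le_rfl
    have e2 : (u.filter fun j => lv j < a + 1) = u := by
      rw [filter_eq_self]
      intro j hj
      have := hlv1 j hj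
      omega
    rw [e2, ← hm, Nat.add_sub_cancel] at e
    exact e
  have hlow : ∀ j ∈ u, 3 ≤ lv j → lv j + 1 ≤ ∑ i ∈ u.filter (fun i => lv i < lv j), lv i := by
    intro j hj h3
    have h4 := hlv1 j hj
    rw [K2z_fib u lv a hc2 (lv j) (by omega)]
    obtain ⟨p, hp⟩ : ∃ p, lv j = p + 3 := ⟨lv j - 3, by omega⟩
    rw [hp]
    have e4 : p + 3 - 1 = p + 2 := by omega
    rw [e4]
    nlinarith
  have hPer : Per (FS u g) K d m := by
    rw [hm]
    exact hF2 G ι u g K d lv hK2 hASg (fun j _ => hgl j) (hc2 1 le_rfl (by omega))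
      (hc2 2 (by omega) (by omega)) hlow
  have hsum : (∑ j ∈ u, g j) - m • d ∈ K := by
    rw [hm, sum_smul, ← sum_sub_distrib]
    exact K.sum_mem fun j _ => hgl j
  obtain ⟨_, _, hC3⟩ := hCn G (FS u g) K d hd
  obtain ⟨t3, t2, t1⟩ := hC3 m hPer
  rw [← hq] at t1 t2 t3
  rw [hK2, sg1] at t1 t2
  have hz1 : 1 ≤ ((FS u g).filter fun x => x ∈ K).card := by
    rw [Nat.one_le_iff_ne_zero, ← Nat.pos_iff_ne_zero, card_pos]
    exact ⟨0, mem_filter.2 ⟨zero_mem_FS u g, K.zero_mem⟩⟩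
  have hz2 : 1 ≤ ((FS u g).filter fun x => x - m • d ∈ K).card := by
    rw [Nat.one_le_iff_ne_zero, ← Nat.pos_iff_ne_zero, card_pos]
    exact ⟨∑ j ∈ u, g j, mem_filter.2 ⟨mem_FS.2 ⟨u, Subset.refl _, rfl⟩, hsum⟩⟩
  have hm1 : 1 ≤ m := by
    rw [hm2]
    exact Nat.mul_pos (by omega) (by omega)
  obtain ⟨X, hX⟩ : ∃ X, X = (FS u f).card := ⟨_, rfl⟩
  rw [← hX] at t1 t2 ⊢
  rw [hua] at hN h5 ⊢
  rcases Nat.lt_or_ge m q with hmq | hmq
  · have h1 := t1 hm1 hmq
    have h2 : 2 * m ≤ X := by omega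
    rw [hm2] at h2
    have hA : a * 2 * (a * 2 + 1) = 4 * (a * a) + 2 * a := by ring
    have hB : 2 * ((a + 1) * a) = 2 * (a * a) + 2 * a := by ring
    rw [hA]
    rw [hB] at h2
    omega
  · rcases Nat.lt_or_ge q m with h2 | h2
    · exfalso
      have h3 := t3 h2
      have hw : ∃ w ∈ K, w ≠ 0 := by
        by_contra hcon
        push Not at hcon
        have hbot : K = ⊥ := by
          rw [eq_bot_iff]
          intro x hx
          rw [AddSubgroup.mem_bot]
          exact hcon x hx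
        rw [hbot, AddSubgroup.card_bot] at hK2
        omega
      obtain ⟨w, _, hw0⟩ := hw
      exact hw0 (hApg w fun x _ => h3 _)
    · have h3 := t2 hm1 (le_antisymm h2 hmq)
      have hmq' : m = q := le_antisymm h2 hmq
      have h4 : Nat.card G ≤ X + 1 := by omega
      have h6 : 2 * (a * 2 * (a * 2 - 1) + 1) ≤ 2 * X := by omega
      obtain ⟨p, rfl⟩ : ∃ p, a = p + 3 := ⟨a - 3, by omega⟩
      have e1 : (p + 3) * 2 - 1 = 2 * p + 5 := by omega
      rw [e1] at h6
      nlinarith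

end Pool.Agent.SSZ
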