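import Pool.Agent.SSZ.St
import Pool.Agent.Helper58.Atoms

/-!
# SSZ: module Kz, critical pairs
-/

set_option autoImplicit false

noncomputable section

open Finset Pool.Agent.Helper64.Rho Pool.Agent.SDG Pool.Agent.MDR Pool.Agent.SSC Pool.Agent.SSE Pool.Agent.SSF
open scoped Classical Pointwise

namespace Pool.Agent.SSZ

private theorem Kz_mem_st {G : Type} [AddCommGroup G] [Finite G] {A : Finset G}
    {H : AddSubgroup G} {x : G} : x ∈ st A H ↔ ∃ a ∈ A, x - a ∈ H := by
  unfold st
  rw [Set.Finite.mem_toFinset]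
  rfl

/-- leaving a set by steps `d` -/
private theorem Kz_walk {G : Type} [AddCommGroup G] {D : Finset G} {d y : G} (hy : y ∈ D) {t : ℕ}
    (ht : y + t • d ∉ D) : ∃ m, y + m • d ∈ D ∧ y + (m + 1) • d ∉ D := by
  have hex : ∃ n, y + n • d ∉ D := ⟨t, ht⟩
  have h1 := Nat.find_spec hex
  have h2 : Nat.find hex ≠ 0 := by
    intro h
    rw [h, zero_smul, add_zero] at h1
    exact h1 hy
  refine ⟨Nat.find hex - 1, ?_, ?_⟩
  · by_contra hcon
    have := Nat.find_min' hex hcon
    omega
  · rwa [show Nat.find hex - 1 + 1 = Nat.find hex by omega]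

/-- multiples in a finite cyclic group -/
private theorem Kz_zm {G : Type} [AddCommGroup G] [Finite G] {d x : G}
    (h : x ∈ AddSubgroup.zmultiples d) : ∃ t : ℕ, x = t • d := by
  have h1 : x ∈ AddSubmonoid.multiples d := mem_multiples_iff_mem_zmultiples.2 h
  obtain ⟨n, hn⟩ := AddSubmonoid.mem_multiples_iff _ _ |>.1 h1
  exact ⟨n, hn.symm⟩

theorem thm_Kz : St_Kz := by
  intro G _ _ X Y hcyc hX2 hY2 hK hXY hroom
  have : Fintype G := Fintype.ofFinite G
  have hst : ∀ K : AddSubgroup G, st X K = Helper58.sat X K := by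
    intro K
    ext x
    rw [Kz_mem_st, Helper58.mem_sat]
  have hFc : ∀ K : AddSubgroup G, Nat.card K = (Helper58.F K).card := by
    intro K
    rw [Nat.card_eq_fintype_card, Helper58.F]
    exact Fintype.card_subtype _
  have hFt : (Helper58.F (⊤ : AddSubgroup G)).card = Nat.card G := by
    rw [← hFc]
    exact Nat.card_congr AddSubgroup.topEquiv.toEquiv
  have hNK : Helper58.NK X (⊤ : AddSubgroup G) := by
    intro K hK1 hK2
    have h1 := hK K hK1 hK2.ne
    rw [hst, hFc] at h1
    exact h1
  have hcr : Helper58.Crit X (⊤ : AddSubgroup G) Y := by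
    refine ⟨?_, hY2, ?_, ?_⟩
    · intro x _
      exact Helper58.mem_F.2 (AddSubgroup.mem_top x)
    · rw [add_comm Y X]
      omega
    · rw [hFt, add_comm Y X]
      exact hroom
  obtain ⟨d, hd0, -, hd⟩ := Helper58.key
    (fun x _ => Helper58.mem_F.2 (AddSubgroup.mem_top x)) hX2 hNK hcr
  -- exits
  have hBd : ∀ x ∈ X, ∀ y ∈ X, x + d ∉ X → y + d ∉ X → x = y := by
    intro x hx y hy hxd hyd
    by_contra hne
    have h1 : X ∪ {x + d, y + d} ⊆ X ∪ ({d} + X) := by
      intro z hz
      rcases Finset.mem_union.1 hz with h | h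
      · exact Finset.mem_union_left _ h
      · refine Finset.mem_union_right _ ?_
        rcases Finset.mem_insert.1 h with h | h
        · rw [h]
          exact Finset.mem_add.2 ⟨d, Finset.mem_singleton_self d, x, hx, add_comm _ _⟩
        · rw [Finset.mem_singleton.1 h]
          exact Finset.mem_add.2 ⟨d, Finset.mem_singleton_self d, y, hy, add_comm _ _⟩
    have h2 : Disjoint X {x + d, y + d} := by
      rw [Finset.disjoint_left]
      intro z hz hz2
      rcases Finset.mem_insert.1 hz2 with h | h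
      · exact hxd (h ▸ hz)
      · exact hyd ((Finset.mem_singleton.1 h) ▸ hz)
    have h3 := Finset.card_le_card h1
    rw [Finset.card_union_of_disjoint h2, Finset.card_pair
      (fun h => hne (add_right_cancel h))] at h3
    omega
  -- the subgroup generated by `d`
  have hK0 : AddSubgroup.zmultiples d ≠ ⊥ := by
    intro h
    exact hd0 (AddSubgroup.zmultiples_eq_bot.1 h)
  have hKt : AddSubgroup.zmultiples d ≠ ⊤ := by
    intro h
    apply hcyc
    exact isAddCyclic_iff_exists_zmultiples_eq_top.2 ⟨d, h⟩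
  have hfin := hK (AddSubgroup.zmultiples d) hK0 hKt
  have hpos : 0 < Nat.card (AddSubgroup.zmultiples d) := Nat.card_pos
  -- elements of `st X K` outside `X` lie in one coset
  have hout : ∀ y ∈ st X (AddSubgroup.zmultiples d), y ∉ X →
      ∃ x ∈ X, x + d ∉ X ∧ y - x ∈ AddSubgroup.zmultiples d := by
    intro y hy hyD
    obtain ⟨a, ha, hya⟩ := Kz_mem_st.1 hy
    obtain ⟨t, ht⟩ := Kz_zm hya
    have h1 : a + t • d ∉ X := by
      rw [← ht]
      rwa [add_sub_cancel]
    obtain ⟨m, hm1, hm2⟩ := Kz_walk ha h1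
    refine ⟨a + m • d, hm1, ?_, ?_⟩
    · rwa [add_assoc, ← succ_nsmul]
    · have h2 : y - (a + m • d) = (y - a) - m • d := by abel
      rw [h2]
      exact AddSubgroup.sub_mem _ hya (AddSubgroup.nsmul_mem_zmultiples d m)
  by_cases hall : st X (AddSubgroup.zmultiples d) ⊆ X
  · have h1 := Finset.card_le_card hall
    omega
  · obtain ⟨y0, hy0, hy0D⟩ := Finset.not_subset.1 hall
    obtain ⟨x0, hx0, hx0d, -⟩ := hout y0 hy0 hy0D
    have h1 : st X (AddSubgroup.zmultiples d) ⊆
        X ∪ ((Helper58.coset (AddSubgroup.zmultiples d) x0).erase x0) := by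
      intro y hy
      by_cases hyD : y ∈ X
      · exact Finset.mem_union_left _ hyD
      · refine Finset.mem_union_right _ ?_
        obtain ⟨x, hx, hxd, hyx⟩ := hout y hy hyD
        have h2 : x = x0 := hBd x hx x0 hx0 hxd hx0d
        rw [h2] at hyx
        refine Finset.mem_erase.2 ⟨?_, Helper58.mem_coset.2 hyx⟩
        intro h3
        exact hyD (h3 ▸ hx0)
    have h2 := (Finset.card_le_card h1).trans (Finset.card_union_le _ _)
    have h3 : x0 ∈ Helper58.coset (AddSubgroup.zmultiples d) x0 := by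
      rw [Helper58.mem_coset, sub_self]
      exact AddSubgroup.zero_mem _
    have h4 := Finset.card_erase_add_one h3
    have h5 := Helper58.card_coset (AddSubgroup.zmultiples d) x0
    rw [← hFc] at h5
    omega

end Pool.Agent.SSZ
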