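import Pool.Agent.SSF.Fin
import Pool.Agent.SSZ.St

/-!
# SSZ, Lz: a half with `1 + l (l+1) / 2` sums, every member changes few sums (helper2)
-/

set_option autoImplicit false

noncomputable section

open Finset Pool.Agent.Helper64.Rho Pool.Agent.SDG Pool.Agent.MDR Pool.Agent.SSC Pool.Agent.SSE Pool.Agent.SSF
open scoped Classical Pointwise

namespace Pool.Agent.SSZ

/-- erasing a member loses at most one member outside a subgroup -/
private theorem Lz_outs {G ι : Type} [AddCommGroup G] {u : Finset ι} {f : ι → G} (i : ι)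
    (M : AddSubgroup G) : (outs u f M).card ≤ (outs (u.erase i) f M).card + 1 := by
  have h1 : (outs u f M).erase i ⊆ outs (u.erase i) f M := by
    intro j hj
    rw [mem_erase] at hj
    unfold outs at hj ⊢
    rw [mem_filter] at hj ⊢
    exact ⟨mem_erase.2 ⟨hj.1, hj.2.1⟩, hj.2.2⟩
  have h2 := card_le_card h1
  have h3 := Finset.pred_card_le_card_erase (s := outs u f M) (a := i)
  omega

/-- **Lz** -/
theorem thm_Lz : St_Gz → St_Ez → St_Ng → St_Lz := by
  intro hGz hEz hNg G ι _ _ u f hZ hl hAE hAp hgen hSep hx2 hN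
  obtain ⟨hR, -⟩ := hGz G hZ
  have hDC : DC u f := (hEz G ι u f hZ).1
  obtain ⟨-, hB2, hB3, -, -, -, -⟩ := Pool.Agent.SDG.all_Ba1 G ι f
  obtain ⟨-, -, -, -, hSl, -, hSe⟩ := Pool.Agent.SSE.all_SyE G ι u f hAE
  obtain ⟨m, hcard⟩ : ∃ m, u.card = m + 1 := ⟨u.card - 1, by omega⟩
  rw [hcard] at hl hx2 ⊢
  have hm : 4 ≤ m := by omega
  have hC1 : C1 m := (Pool.Agent.SSE.all_CC m hm fun n _ => Pool.Agent.SSE.all_PFE n).1
  have hC1N : C1N m := (Pool.Agent.SSF.all_CCF Pool.Agent.SSF.all_GRO
    (fun l hl => (Pool.Agent.SSE.all_CC l hl fun n _ => Pool.Agent.SSE.all_PFE n).1) m hm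
    fun n _ => Pool.Agent.SSF.PR_all n).1
  -- at least three members outside
  have hout : ∀ M : AddSubgroup G, M ≠ ⊤ → M.index ≠ 2 → 3 ≤ (outs u f M).card := by
    intro M hM hM2
    have h1 := hSep M hM hM2
    have h2 := Pool.Agent.SSF.all_DrF G ι u f M (fun n _ => Pool.Agent.SSF.PR_all n) hR hAE hAp
      hgen (by omega) (by rw [hcard]; omega) hM2
    omega
  have e1 : (m + 1) * (m + 1 + 1) = m * (m + 1) + 2 * m + 2 := by ring
  have e2 : m * (m + 1) = m * m + m := by ring
  -- the members of the family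
  have hlam : ∀ i ∈ u, lam (FS u f) (f i) ≤ m := by
    intro i hi
    have h1 : AE (u.erase i) f := (hSe i hi).2.2.2
    have h2 : gen (u.erase i) f = ⊤ := by
      by_contra hne
      have h3 := Pool.Agent.SSF.all_DpF m hm hC1 hC1N G ι u f i hR hAE hAp hgen hDC hout hN
        hcard hi hne
      rw [hcard] at h3
      omega
    have h3 : Sep (u.erase i) f := by
      intro M hM hM2
      have h4 := hout M hM hM2
      have h5 := Lz_outs (u := u) (f := f) i M
      omega
    have h4 : (FS (u.erase i) f).card ≤ (FS u f).card := card_le_card (FS_mono (erase_subset i u) f)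
    have h5 : 2 * (FS (u.erase i) f).card ≤ Nat.card G := by omega
    have h7 : (u.erase i).card = m := by rw [card_erase_of_mem hi, hcard]; omega
    have h9 : Aper (FS (u.erase i) f) := hB2 _ _ (erase_subset i u) hAp
    have h10 := (hNg.1 G ι (u.erase i) f hZ (by omega) h1 h9 h2 h3 h5).2
    rw [h7] at h10
    have h12 := h10 (by omega)
    have h11 := hB3 u i hi
    omega
  intro y hy
  have := hSl (FS u f) m hlam y hy
  omega

end Pool.Agent.SSZ
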