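import Pool.Agent.SSZ.St
import Pool.Agent.SSF.Fin

/-!
# SSZ NfZ: the near-full case in the groups `Z_2 × Z_2p` (helper72)
-/

set_option autoImplicit false

noncomputable section

open Finset Pool.Agent.Helper64.Rho Pool.Agent.SDG Pool.Agent.MDR Pool.Agent.SSC Pool.Agent.SSE Pool.Agent.SSF
open scoped Classical Pointwise

namespace Pool.Agent.SSZ

/-- an abelian group of order `2 p` is cyclic -/
private theorem NfZ_cyc (H : Type) [AddCommGroup H] [Finite H] (p : ℕ) (hp : p.Prime) (hp5 : 5 ≤ p)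
    (hc : Nat.card H = 2 * p) : IsAddCyclic H := by
  have : Fact p.Prime := ⟨hp⟩
  have : Fact (Nat.Prime 2) := ⟨Nat.prime_two⟩
  obtain ⟨a, ha⟩ := exists_prime_addOrderOf_dvd_card' (G := H) p (by rw [hc]; exact Dvd.intro_left _ rfl)
  obtain ⟨b, hb⟩ := exists_prime_addOrderOf_dvd_card' (G := H) 2 (by rw [hc]; exact Dvd.intro _ rfl)
  have hcop : (addOrderOf a).Coprime (addOrderOf b) := by
    rw [ha, hb]
    exact (Nat.coprime_primes hp Nat.prime_two).2 (by omega)
  have hab := (AddCommute.all a b).addOrderOf_add_eq_mul_addOrderOf_of_coprime hcop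
  rw [ha, hb] at hab
  exact isAddCyclic_of_addOrderOf_eq_card (a + b) (by rw [hab, hc, mul_comm])

/-- rank at most two -/
private theorem NfZ_R2 (G : Type) [AddCommGroup G] [Finite G] (hZ : ZV G) : R2 G := by
  obtain ⟨-, p, hp, hp5, hc⟩ := hZ
  intro q hq
  have : Fact q.Prime := ⟨hq⟩
  obtain ⟨T, hT⟩ : ∃ T : AddSubgroup G, T = (nsmulAddMonoidHom q : G →+ G).ker := ⟨_, rfl⟩
  have hmem : ∀ x : G, x ∈ T ↔ q • x = 0 := by
    intro x
    rw [hT, AddMonoidHom.mem_ker]
    exact Iff.rfl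
  have hcard : Nat.card {x : G // q • x = 0} = Nat.card T :=
    Nat.card_congr (Equiv.subtypeEquivRight fun x => (hmem x).symm)
  rw [hcard]
  have hne : Nat.card T ≠ 0 := Nat.card_pos.ne'
  have hpow := Nat.eq_prime_pow_of_unique_prime_dvd hne (p := q) (fun {r} hr hrd => by
    have : Fact r.Prime := ⟨hr⟩
    obtain ⟨x, hx⟩ := exists_prime_addOrderOf_dvd_card' (G := T) r hrd
    have h1 : q • x = 0 := Subtype.ext ((hmem x.1).1 x.2)
    have h2 : addOrderOf x ∣ q := addOrderOf_dvd_of_nsmul_eq_zero h1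
    rw [hx] at h2
    exact (Nat.prime_dvd_prime_iff_eq hr hq).1 h2)
  have hdvd : Nat.card T ∣ 4 * p := by
    rw [← hc]
    exact AddSubgroup.card_addSubgroup_dvd_card T
  obtain ⟨k, hk⟩ : ∃ k, Nat.card T = q ^ k := ⟨_, hpow⟩
  rw [hk] at hdvd ⊢
  by_contra hcon
  push Not at hcon
  have hk3 : 3 ≤ k := by
    by_contra hlt
    exact absurd (Nat.pow_le_pow_right hq.pos (show k ≤ 2 by omega)) (by omega)
  have h3 : q ^ 3 ∣ 4 * p := (pow_dvd_pow q hk3).trans hdvd
  rcases Nat.lt_or_ge 2 q with h2 | h2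
  · have hcop : (q ^ 3).Coprime 4 := by
      have : q.Coprime 2 := (Nat.coprime_primes hq Nat.prime_two).2 (by omega)
      exact Nat.Coprime.pow_left 3 (Nat.Coprime.pow_right 2 this)
    have h4 : q ^ 3 ∣ p := hcop.dvd_of_dvd_mul_left h3
    have h5 : q = p := (Nat.prime_dvd_prime_iff_eq hq hp).1 ((dvd_pow_self q (by omega)).trans h4)
    have h6 := Nat.le_of_dvd hp.pos h4
    rw [h5] at h6
    have h7 : p ^ 1 < p ^ 3 := Nat.pow_lt_pow_right hp.one_lt (by omega)
    rw [pow_one] at h7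
    omega
  · have h5 : q = 2 := le_antisymm h2 hq.two_le
    rw [h5] at h3
    have h6 : 2 ∣ p := by
      obtain ⟨c, hc'⟩ := h3
      exact ⟨c, by omega⟩
    have h7 : 2 = p := (Nat.prime_dvd_prime_iff_eq Nat.prime_two hp).1 h6
    omega

private theorem NfZ_cf (m : ℕ) : cf 2 m = 1 + (m + 1) ^ 2 / 4 := SDG.thm_Nm1.2.2.1 m

/-- the bound for nine members -/
private theorem NfZ_bd9 (G : Type) [AddCommGroup G] [Finite G] (hZ : ZV G) :
    Pool.Agent.SNW.bd2 G 9 ≤ 26 := by
  obtain ⟨-, p, hp, hp5, hc⟩ := hZ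
  have : Fact (Nat.Prime 2) := ⟨Nat.prime_two⟩
  obtain ⟨z, hz⟩ := exists_prime_addOrderOf_dvd_card' (G := G) 2 (by rw [hc]; exact ⟨2 * p, by ring⟩)
  have hK : Nat.card (AddSubgroup.zmultiples z) = 2 := by rw [Nat.card_zmultiples, hz]
  have hQ : Nat.card (G ⧸ AddSubgroup.zmultiples z) = 2 * p := by
    have h1 := AddSubgroup.card_eq_card_quotient_mul_card_addSubgroup (AddSubgroup.zmultiples z)
    rw [hc, hK] at h1
    omega
  have hcyc := NfZ_cyc (G ⧸ AddSubgroup.zmultiples z) p hp hp5 hQ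
  have htop : AddSubgroup.zmultiples z ≠ ⊤ := by
    intro h
    rw [h, AddSubgroup.card_top, hc] at hK
    omega
  have hval : Pool.Agent.SNW.val2 9 (AddSubgroup.zmultiples z) = 26 := by
    unfold Pool.Agent.SNW.val2
    rw [if_pos hcyc, hK]
    simp [cf, Finset.sum_range_succ]
  unfold Pool.Agent.SNW.bd2
  refine Nat.sInf_le (Or.inr ⟨AddSubgroup.zmultiples z, htop, hval.symm⟩)

private theorem NfZ_num (m N F p : ℕ) (hm : 1 < m) (h10 : m < 10) (h9 : m ≠ 9) (hc : N = 4 * p)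
    (hp5 : 5 ≤ p) (hp6 : p ≠ 6) (hp8 : p ≠ 8) (hF : F ≤ 1 + (m + 1) ^ 2 / 4)
    (hF' : 1 + (m + 1) ^ 2 / 4 ≤ F) (hN : F ≤ N)
    (hnf : N ≤ F + (m + 1) / 2 * ((m + 1) / 2 - 1))
    (hfin : ¬ ((m = 7 ∧ N = 20) ∨ (m = 7 ∧ N = 28) ∨ (m = 8 ∧ N = 28))) : False := by
  subst hc
  have hm' : m = 2 ∨ m = 3 ∨ m = 4 ∨ m = 5 ∨ m = 6 ∨ m = 7 ∨ m = 8 := by omega
  rcases hm' with rfl | rfl | rfl | rfl | rfl | rfl | rfl <;>
    norm_num at hF hF' hnf hfin <;> omega

theorem thm_NfZ : St_FinZ → St_Bd → St_NfZ := by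
  intro hFin hBd hS G _ _ hZ A h0 hA1 hcl hAp hlt hnf
  have hR2 := NfZ_R2 G hZ
  have hne : ∀ i ∈ A, (id i : G) ≠ 0 := by
    intro i hi h
    apply h0
    rw [← show i = 0 from h]
    exact hi
  have hcap : Cap 2 A (id : G → G) := by
    intro x
    have h1 : (A.filter fun i => (id i : G) = x ∨ (id i : G) = -x) ⊆ {x, -x} := by
      intro i hi
      rcases (mem_filter.1 hi).2 with h | h
      · rw [mem_insert]
        exact Or.inl h
      · rw [mem_insert, mem_singleton]
        exact Or.inr h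
    exact (card_le_card h1).trans card_le_two
  have hgen : gen A (id : G → G) = ⊤ := by
    unfold gen
    rw [Set.image_id]
    exact hcl
  have hPR := SSF.PR_all A.card G G A id hR2 rfl hne hcap hAp
  rcases Nat.lt_or_ge 1 A.card with hm | hm
  · by_contra hcon
    push Not at hcon
    have hbd := hBd G A.card hZ hm
    obtain ⟨hnc, p, hp, hp5, hc⟩ := hZ
    have hle : (FS A (id : G → G)).card ≤ cf 2 A.card := by omega
    have hN : (FS A (id : G → G)).card ≤ Nat.card G := by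
      have := Fintype.ofFinite G
      rw [Nat.card_eq_fintype_card]
      exact Finset.card_le_univ _
    rcases Nat.lt_or_ge A.card 10 with h10 | h10
    · rw [NfZ_cf] at hPR hle
      unfold SDG.jj at hnf
      have hp6 : p ≠ 6 := by
        rintro rfl
        exact absurd hp (by norm_num)
      have hp8 : p ≠ 8 := by
        rintro rfl
        exact absurd hp (by norm_num)
      have hfin : ¬ ((A.card = 7 ∧ Nat.card G = 20) ∨ (A.card = 7 ∧ Nat.card G = 28) ∨
          (A.card = 8 ∧ Nat.card G = 28)) := by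
        intro h
        have h2 := hS G A ⟨hnc, p, hp, hp5, hc⟩ h0 hAp hcl h
        rw [NfZ_cf] at h2
        omega
      by_cases h9 : A.card = 9
      · have h2 := NfZ_bd9 G ⟨hnc, p, hp, hp5, hc⟩
        rw [h9] at hcon hPR
        norm_num at hPR
        omega
      · exact NfZ_num A.card (Nat.card G) (FS A (id : G → G)).card p hm h10 h9 hc hp5 hp6 hp8
          hle hPR hN hnf hfin
    · have h2 := hFin G G A id ⟨hnc, p, hp, hp5, hc⟩ h10 hne hcap hAp hgen
      omega
  · exfalso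
    have h1 : A.card = 1 := by omega
    obtain ⟨a, ha⟩ := Finset.card_eq_one.1 h1
    apply hZ.1
    refine ⟨a, fun x => ?_⟩
    have hx : x ∈ AddSubgroup.closure (A : Set G) := by
      rw [hcl]
      exact AddSubgroup.mem_top x
    rw [ha, coe_singleton, ← AddSubgroup.zmultiples_eq_closure] at hx
    exact AddSubgroup.mem_zmultiples_iff.1 hx

end Pool.Agent.SSZ
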