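import Pool.Agent.SSZ.St
import Pool.Agent.SSF.Fin

/-!
# SSZ, module Od: the odd case
-/

set_option autoImplicit false

open Finset Pool.Agent.Helper64.Rho Pool.Agent.SDG Pool.Agent.MDR Pool.Agent.SSC Pool.Agent.SSE Pool.Agent.SSF
open scoped Classical Pointwise

namespace Pool.Agent.SSZ

private theorem Od_outs {G ι : Type} [AddCommGroup G] (u : Finset ι) (f : ι → G) :
    outs u f (gen u f) = ∅ := by
  refine Finset.filter_eq_empty_iff.2 fun j hj => ?_
  rw [not_not]
  exact AddSubgroup.subset_closure ⟨j, Finset.mem_coe.2 hj, rfl⟩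

private theorem Od_AE {G ι : Type} [AddCommGroup G] {s u : Finset ι} {f : ι → G}
    (hus : u ⊆ s) (hap : Aper (FS s f)) (hA : AS u f) : AE u f := by
  refine ⟨hA, fun i hi h => ?_⟩
  exact (Pool.Agent.SDG.all_Ba1 G ι f).2.2.2.2.1 s i (hus hi) hap (hA.1 i hi) (eq_neg_of_add_eq_zero_left h)

private theorem Od_AS {G ι : Type} [AddCommGroup G] {u v : Finset ι} {f : ι → G} (hvu : v ⊆ u)
    (hA : AS u f) : AS v f :=
  ⟨fun i hi => hA.1 i (hvu hi), fun x => (card_le_card (filter_subset_filter _ hvu)).trans (hA.2 x)⟩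

private theorem Od_gen {G ι : Type} [AddCommGroup G] {u : Finset ι} {f : ι → G}
    (h : ∀ M : AddSubgroup G, M ≠ ⊤ → 1 ≤ (outs u f M).card) : gen u f = ⊤ := by
  by_contra hne
  have h1 := h _ hne
  rw [Od_outs] at h1
  simp at h1

theorem thm_Od : St_Gz → St_Ez → St_Ng → St_Hz → St_Od := by
  intro hGz _hEz hNg hHz G ι _ _ l s f hl hCtx
  have hKn := Pool.Agent.SDG.all_Kn
  have hBa := Pool.Agent.SDG.all_Ba1
  obtain ⟨m, rfl⟩ : ∃ m, l = m + 1 := ⟨l - 1, by omega⟩
  obtain ⟨t, ht⟩ : ∃ t, t = 2 * (m + 1) - 1 := ⟨_, rfl⟩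
  rw [← ht] at hCtx
  have hC := hCtx
  obtain ⟨hZV, hsc, hne, hcap, hAper, hgen, hle⟩ := hC
  have hR2 : R2 G := (hGz G hZV).1
  obtain ⟨s1, s2, hd, hun, hAS1, hAS2, hc1, hc2, hout, hsep1, hsep2, hodd⟩ := hHz G ι t s f hCtx (by omega)
  have hout2 := hodd (by omega)
  have hc1' : s1.card = m + 1 := by omega
  have hc2' : s2.card = m := by omega
  -- numbers
  obtain ⟨q, hq⟩ : ∃ q, q = m * (m + 1) := ⟨_, rfl⟩
  have e1 : (m + 1) * (m + 1 + 1) = q + 2 * m + 2 := by rw [hq]; ring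
  have e2 : (m + 1) * (m + 1 - 1) = q := by rw [hq, Nat.add_sub_cancel]; ring
  have e3 : m * m + 2 * m = q + m := by rw [hq]; ring
  have hq20 : 5 * (m + 1) ≤ q := by
    rw [hq]
    exact Nat.mul_le_mul_right _ (by omega)
  have ecf : cf 2 t = q + m + 2 := by
    have h1 : (2 * (m + 1)) ^ 2 = 4 * ((m + 1) ^ 2) := by ring
    rw [Pool.Agent.SDG.all_Nm1.2.2.1 t, show t + 1 = 2 * (m + 1) by omega, h1,
      Nat.mul_div_cancel_left _ (by norm_num), hq]
    ring
  rw [ecf] at hle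
  have hTlow := PR_all t G ι s f hR2 hsc hne hcap hAper
  rw [ecf] at hTlow
  -- the two halves
  have hs1 : s1 ⊆ s := by
    rw [← hun]
    exact subset_union_left
  have hs2 : s2 ⊆ s := by
    rw [← hun]
    exact subset_union_right
  have hA1p : Aper (FS s1 f) := (hBa G ι f).2.1 s s1 hs1 hAper
  have hA2p : Aper (FS s2 f) := (hBa G ι f).2.1 s s2 hs2 hAper
  have hE1 := Od_AE hs1 hAper hAS1
  have hE2 := Od_AE hs2 hAper hAS2
  have hg1 : gen s1 f = ⊤ := Od_gen fun M hM => (hout M hM).1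
  have hg2 : gen s2 f = ⊤ := Od_gen fun M hM => (hout M hM).2
  have hFS : FS s f = FS s1 f + FS s2 f := by
    rw [← hun]
    exact (hBa G ι f).1 s1 s2 hd
  have hX0 : (FS s1 f).Nonempty := ⟨0, zero_mem_FS _ _⟩
  have hX20 : (FS s2 f).Nonempty := ⟨0, zero_mem_FS _ _⟩
  have hAp12 : Aper (FS s1 f + FS s2 f) := by
    rw [← hFS]
    exact hAper
  have hk1 := (hKn G).1 _ _ hX0 hX20 hAp12
  rw [← hFS] at hk1
  have hs1ne : s1.Nonempty := Finset.card_pos.1 (by omega)
  have htb : (⊤ : AddSubgroup G) ≠ ⊥ := by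
    intro h
    obtain ⟨i, hi⟩ := hs1ne
    have h1 : f i ∈ (⊤ : AddSubgroup G) := AddSubgroup.mem_top _
    rw [h] at h1
    exact hAS1.1 i hi (AddSubgroup.mem_bot.1 h1)
  have hk2 : (FS s1 f).card + (FS s2 f).card ≤ Nat.card G := by
    have h1 := (hKn G).2.1 (FS s1 f) (FS s2 f) ⊤ hX0 hX20 htb
      (fun _ _ => AddSubgroup.mem_top _) (fun _ _ => AddSubgroup.mem_top _) hAp12
    rwa [AddSubgroup.card_top] at h1
  have hN : q + m + 3 ≤ Nat.card G := by
    have h1 := (hKn G).2.2.2 (FS s f) ⊤ ⟨0, zero_mem_FS _ _⟩ htb (fun _ _ => AddSubgroup.mem_top _) hAper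
    rw [AddSubgroup.card_top] at h1
    omega
  -- (i)
  have hi : 4 + q ≤ 2 * (FS s2 f).card := by
    by_cases h : 2 * (FS s2 f).card ≤ Nat.card G
    · have h1 := (hNg.1 G ι s2 f hZV (by omega) hE2 hA2p hg2 hsep2 h).2
        (by rw [hc2', e3]; omega)
      rw [hc2', ← hq] at h1
      exact h1
    · omega
  -- (ii)
  have hii : 2 * (FS s1 f).card ≤ q + 2 * m + 2 := by omega
  -- (iii)
  have hout3 : ∀ M : AddSubgroup G, M ≠ ⊤ → M.index ≠ 2 → 3 ≤ (outs s1 f M).card := by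
    intro M hM hM2
    have h1 := hsep1 M hM hM2
    have h2 := all_DrF G ι s1 f M (fun n _ => PR_all n) hR2 hE1 hA1p hg1 (by omega)
      (by rw [hc1', e1]; omega) hM2
    omega
  have hoc : ∀ i ∈ s1, ∀ M : AddSubgroup G, (outs s1 f M).card ≤ (outs (s1.erase i) f M).card + 1 := by
    intro i hi M
    have h4 : outs s1 f M ⊆ insert i (outs (s1.erase i) f M) := by
      intro j hj
      rw [Finset.mem_insert]
      by_cases hji : j = i
      · exact Or.inl hji
      · have h5 := Finset.mem_filter.1 hj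
        exact Or.inr (Finset.mem_filter.2 ⟨Finset.mem_erase.2 ⟨hji, h5.1⟩, h5.2⟩)
    exact (Finset.card_le_card h4).trans (Finset.card_insert_le _ _)
  have hSep' : ∀ i ∈ s1, Sep (s1.erase i) f := by
    intro i hi M hM hM2
    have h3 := hout3 M hM hM2
    have h4 := hoc i hi M
    omega
  have hgenE : ∀ i ∈ s1, gen (s1.erase i) f = ⊤ := by
    intro i hi
    refine Od_gen fun M hM => ?_
    have h3 := hout2 M hM
    have h4 := hoc i hi M
    omega
  have hASE : ∀ i ∈ s1, AS (s1.erase i) f := fun i _ => Od_AS (Finset.erase_subset _ _) hAS1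
  have hEE : ∀ i ∈ s1, AE (s1.erase i) f := fun i hi =>
    Od_AE ((Finset.erase_subset _ _).trans hs1) hAper (hASE i hi)
  have hApE : ∀ i ∈ s1, Aper (FS (s1.erase i) f) := fun i _ =>
    (hBa G ι f).2.1 s1 _ (Finset.erase_subset _ _) hA1p
  have hcE : ∀ i ∈ s1, (s1.erase i).card = m := by
    intro i hi
    rw [Finset.card_erase_of_mem hi, hc1', Nat.add_sub_cancel]
  have hlow : ∀ i ∈ s1, 4 + q ≤ 2 * (FS (s1.erase i) f).card := by
    intro i hi
    by_cases h : 2 * (FS (s1.erase i) f).card ≤ Nat.card G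
    · have h1 := (hNg.1 G ι (s1.erase i) f hZV (by rw [hcE i hi]; omega) (hEE i hi) (hApE i hi)
        (hgenE i hi) (hSep' i hi) h).2 (by rw [hcE i hi, e3]; omega)
      rw [hcE i hi, ← hq] at h1
      exact h1
    · omega
  have hlam : ∀ i ∈ s1, lam (FS s1 f) (f i) + 2 ≤ m + 1 := by
    intro i hi
    have h1 := (hBa G ι f).2.2.1 s1 i hi
    have h2 := hlow i hi
    omega
  obtain ⟨hSc, hS0, hSn, hScl, hSl, -, -⟩ := Pool.Agent.SSE.all_SyE G ι s1 f hE1
  have hlamD : ∀ y ∈ sym s1 f, lam (FS s1 f) y + 2 ≤ m + 1 := by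
    intro y hy
    have h1 := hSl (FS s1 f) (m - 1) (fun i hi => by
      have h2 := hlam i hi
      omega) y hy
    omega
  -- (iv)
  have hgrow : ∀ i, 1 ≤ i → Nat.card G ≤ (it (sym s1 f) i).card + 4 ∨
      i * (2 * (m + 1) + 2) ≤ (it (sym s1 f) i).card + 2 := by
    rcases hNg.2 G ι s1 f hZV (by omega) hE1 hA1p hg1 (by rw [hc1']; omega)
      (Or.inl (by rw [hc1', e2]; omega)) with h | h
    · rw [hc1', e1] at h
      omega
    · intro i hi
      rw [hc1'] at h
      rcases h i hi with h3 | h3 | ⟨h3, h4⟩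
      · exact Or.inl h3
      · right
        omega
      · right
        subst h3
        omega
  -- (v)
  have hXlow : 2 + q ≤ 2 * (FS s1 f).card := by
    obtain ⟨i, hi⟩ := hs1ne
    have h1 := hlow i hi
    have h2 := Finset.card_le_card (FS_mono (Finset.erase_subset i s1) f)
    omega
  by_cases h : 2 * (FS s1 f).card ≤ Nat.card G
  · refine Pool.Agent.SSE.all_A1E G (FS s1 f) (sym s1 f) (m + 1) hS0 (by omega) hlamD
      (by rw [e2]; exact hXlow) fun i hi => ?_
    rcases hgrow i hi with h1 | h1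
    · left
      omega
    · exact Or.inr h1
  · have : Fintype G := Fintype.ofFinite G
    have hcc : ((FS s1 f)ᶜ).card = Nat.card G - (FS s1 f).card := by
      rw [Finset.card_compl, Nat.card_eq_fintype_card]
    refine Pool.Agent.SSE.all_A1E G (FS s1 f)ᶜ (sym s1 f) (m + 1) hS0 (by omega) (fun y hy => ?_)
      (by rw [e2, hcc]; omega) fun i hi => ?_
    · rw [lam_compl]
      exact hlamD y hy
    · rcases hgrow i hi with h1 | h1
      · left
        rw [hcc]
        omega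
      · exact Or.inr h1

end Pool.Agent.SSZ
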