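import Pool.Agent.SSZ.St
import Pool.Agent.SSF.Fin

/-!
# SSZ, Nz: no subgroup nearly fills the sums of a half
-/

set_option autoImplicit false

noncomputable section

open Finset Pool.Agent.Helper64.Rho Pool.Agent.SDG Pool.Agent.MDR Pool.Agent.SSC Pool.Agent.SSE Pool.Agent.SSF
open scoped Classical Pointwise

namespace Pool.Agent.SSZ

/-- groups of order `2 p` have rank at most two -/
private theorem Nz_R2 {Q : Type} [AddCommGroup Q] [Finite Q] {p : ℕ} (hp : p.Prime)
    (hQ : Nat.card Q = 2 * p) : R2 Q := by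
  intro q hq
  have h0 : Nat.card {x : Q // q • x = 0} = Nat.card (nsmulAddMonoidHom q : Q →+ Q).ker := by
    apply Nat.card_congr
    exact Equiv.subtypeEquivRight fun x => by simp [AddMonoidHom.mem_ker]
  rw [h0]
  have hdvd : Nat.card (nsmulAddMonoidHom q : Q →+ Q).ker ∣ 2 * p := by
    rw [← hQ]
    exact AddSubgroup.card_addSubgroup_dvd_card _
  have hq2 := hq.two_le
  have hp2 := hp.two_le
  by_cases hpd : p ∣ Nat.card (nsmulAddMonoidHom q : Q →+ Q).ker
  · have hpf : Fact p.Prime := ⟨hp⟩
    obtain ⟨x, hx⟩ := exists_prime_addOrderOf_dvd_card' (G := (nsmulAddMonoidHom q : Q →+ Q).ker) p hpd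
    have h1 : q • x = 0 := by
      have h2 := x.2
      rw [AddMonoidHom.mem_ker] at h2
      apply Subtype.ext
      simpa using h2
    have h3 : p ∣ q := by
      rw [← hx]
      exact addOrderOf_dvd_of_nsmul_eq_zero h1
    have h4 : p = q := (Nat.prime_dvd_prime_iff_eq hp hq).1 h3
    have h5 := Nat.le_of_dvd (by omega) hdvd
    subst h4
    nlinarith
  · have h6 : Nat.Coprime (Nat.card (nsmulAddMonoidHom q : Q →+ Q).ker) p :=
      ((Nat.Prime.coprime_iff_not_dvd hp).2 hpd).symm
    have h7 := Nat.le_of_dvd (by omega) (h6.dvd_of_dvd_mul_right hdvd)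
    nlinarith

/-- the cap in the quotient by a group killed by two -/
private theorem Nz_cap {G ι : Type} [AddCommGroup G] [Finite G] (u : Finset ι) (f : ι → G) (K : AddSubgroup G)
    (hK : ∀ x ∈ K, x + x = 0) (hc : Cap 1 u f) :
    Cap (Nat.card K) u (fun i => (QuotientAddGroup.mk (f i) : G ⧸ K)) := by
  intro xb
  obtain ⟨x, rfl⟩ := QuotientAddGroup.mk_surjective xb
  have hfin : (K : Set G).Finite := Set.toFinite _
  have hcard : hfin.toFinset.card = Nat.card K := by
    rw [← Set.ncard_eq_toFinset_card (K : Set G) hfin]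
    rfl
  refine le_trans (card_le_card
    (t := hfin.toFinset.biUnion fun k => u.filter fun i => f i = x + k ∨ f i = -(x + k)) ?_) ?_
  · intro i hi
    simp only [mem_filter] at hi
    obtain ⟨hiu, hi⟩ := hi
    rw [mem_biUnion]
    rcases hi with hi | hi
    · have h1 : -x + f i ∈ K := QuotientAddGroup.eq.1 hi.symm
      refine ⟨-x + f i, by simpa using h1, ?_⟩
      rw [mem_filter]
      exact ⟨hiu, Or.inl (by abel)⟩
    · have h1 : -(-x) + f i ∈ K := by
        rw [← QuotientAddGroup.mk_neg] at hi
        exact QuotientAddGroup.eq.1 hi.symm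
      rw [neg_neg] at h1
      refine ⟨x + f i, by simpa using h1, ?_⟩
      rw [mem_filter]
      refine ⟨hiu, Or.inr ?_⟩
      have h2 := hK _ h1
      have h3 : f i = -(x + (x + f i)) + ((x + f i) + (x + f i)) := by abel
      rw [h2, add_zero] at h3
      exact h3
  · refine card_biUnion_le.trans ?_
    refine (Finset.sum_le_card_nsmul _ _ 1 fun k _ => hc (x + k)).trans ?_
    rw [hcard, smul_eq_mul, mul_one]

/-- the sums meet three cosets of a subgroup that contains all squares -/
private theorem Nz_two {G ι : Type} [AddCommGroup G] [Finite G] (u : Finset ι) (f : ι → G) (K : AddSubgroup G)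
    (hK4 : K.index = 4) (hsq : ∀ x : G, x + x ∈ K) (hgen : gen u f = ⊤) :
    ∃ i ∈ u, ∃ j ∈ u, f i ∉ K ∧ f j ∉ K ∧ f i - f j ∉ K := by
  by_contra hcon
  push Not at hcon
  have h1 : ∃ i ∈ u, f i ∉ K := by
    by_contra h
    push Not at h
    have h2 : gen u f ≤ K := by
      unfold gen
      rw [AddSubgroup.closure_le]
      rintro _ ⟨i, hi, rfl⟩
      exact h i hi
    rw [hgen, top_le_iff] at h2
    rw [h2, AddSubgroup.index_top] at hK4
    omega
  obtain ⟨i, hi, hiK⟩ := h1
  have h2 : ∀ x : G, x ∈ K ∨ x - f i ∈ K := by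
    intro x
    have hx : x ∈ gen u f := by rw [hgen]; trivial
    unfold gen at hx
    induction hx using AddSubgroup.closure_induction with
    | mem x hx =>
      obtain ⟨j, hj, rfl⟩ := hx
      by_cases hjK : f j ∈ K
      · exact Or.inl hjK
      · exact Or.inr (hcon j hj i hi hjK hiK)
    | zero => exact Or.inl K.zero_mem
    | add x y _ _ hx hy =>
      rcases hx with hx | hx <;> rcases hy with hy | hy
      · exact Or.inl (K.add_mem hx hy)
      · right
        have : x + y - f i = x + (y - f i) := by abel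
        rw [this]
        exact K.add_mem hx hy
      · right
        have : x + y - f i = (x - f i) + y := by abel
        rw [this]
        exact K.add_mem hx hy
      · left
        have : x + y = ((x - f i) + (y - f i)) + (f i + f i) := by abel
        rw [this]
        exact K.add_mem (K.add_mem hx hy) (hsq _)
    | neg x _ hx =>
      rcases hx with hx | hx
      · exact Or.inl (K.neg_mem hx)
      · right
        have : -x - f i = -(x - f i) - (f i + f i) := by abel
        rw [this]
        exact K.sub_mem (K.neg_mem hx) (hsq _)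
  have h3 : Nat.card (G ⧸ K) ≤ 2 := by
    have h4 : (Set.univ : Set (G ⧸ K)) ⊆ {(0 : G ⧸ K), (QuotientAddGroup.mk (f i) : G ⧸ K)} := by
      rintro xb -
      obtain ⟨x, rfl⟩ := QuotientAddGroup.mk_surjective xb
      rcases h2 x with hx | hx
      · left
        exact (QuotientAddGroup.eq_zero_iff x).2 hx
      · right
        rw [Set.mem_singleton_iff]
        symm
        rw [QuotientAddGroup.eq]
        rwa [neg_add_eq_sub]
    have h5 := Set.ncard_le_ncard h4 (Set.toFinite _)
    rw [Set.ncard_univ] at h5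
    refine h5.trans ((Set.ncard_insert_le _ _).trans ?_)
    rw [Set.ncard_singleton]
  have h4 : K.index = Nat.card (G ⧸ K) := rfl
  omega

theorem thm_Nz : St_Gz → St_Nz := by
  intro hGz G ι _ _ u f hZ hl hAE hgen h2 hN
  obtain ⟨-, -, -, hcases, hi4, hk4, -⟩ := hGz G hZ
  obtain ⟨hcyc, p, hp, hp5, hNp⟩ := hZ
  by_contra hcon
  push Not at hcon
  -- a bad subgroup of maximal order
  have hex : ({K : AddSubgroup G | K ≠ ⊥ ∧ K ≠ ⊤ ∧ (st (FS u f) K).card < (FS u f).card + Nat.card K}).Nonempty := by
    obtain ⟨K, h⟩ := hcon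
    exact ⟨K, h⟩
  obtain ⟨K, hKm, hmax⟩ := Set.exists_max_image _ (fun K : AddSubgroup G => Nat.card K)
    (Set.toFinite {K : AddSubgroup G | K ≠ ⊥ ∧ K ≠ ⊤ ∧ (st (FS u f) K).card < (FS u f).card + Nat.card K}) hex
  obtain ⟨hKb, hKt, hbad⟩ := hKm
  have hindex : Nat.card K * K.index = 4 * p := by
    rw [← hNp]
    exact AddSubgroup.card_mul_index K
  obtain ⟨hq1, hq2, hq3, -, hq5⟩ := Pool.Agent.SDG.all_Qu G ι u f K
  have hsmall : ∀ c : ℕ, Nat.card K = c → (c = 2 ∨ c = 4) → False := by
    intro c hKc hc24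
    have hK2 : ∀ x ∈ K, x + x = 0 := hk4 K (by omega)
    have hfil : (u.filter fun i => f i ∉ K) = u := by
      rw [filter_eq_self]
      intro i hi hiK
      exact hAE.2 i hi (hK2 _ hiK)
    rw [hfil] at hq1 hq2 hq3 hq5
    have hap : Aper (FS u fun i => (QuotientAddGroup.mk (f i) : G ⧸ K)) := by
      apply hq3
      intro g hg
      obtain ⟨P, hP⟩ := P1_per (st (FS u f) K)
      have hgP : g ∈ P := (hP g).2 hg
      have hKP : K ≤ P := by
        intro k hk
        rw [hP]
        intro x hx
        rw [P1_mem_st] at hx ⊢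
        obtain ⟨a, ha, hxa⟩ := hx
        refine ⟨a, ha, ?_⟩
        have : x + k - a = (x - a) + k := by abel
        rw [this]
        exact K.add_mem hxa hk
      have hstP : st (FS u f) P = st (FS u f) K := P1_st _ K P P hKP le_rfl hP
      have hKPc : Nat.card K ≤ Nat.card P := AddSubgroup.card_le_of_le hKP
      by_cases hPt : P = ⊤
      · exfalso
        have h3 : st (FS u f) K = (Set.toFinite (Set.univ : Set G)).toFinset := by
          rw [← hstP, hPt]
          ext x
          rw [P1_mem_st]
          simp only [Set.Finite.mem_toFinset, Set.mem_univ, iff_true]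
          exact ⟨0, zero_mem_FS _ _, trivial⟩
        have h4 : (st (FS u f) K).card = 4 * p := by
          rw [h3, ← Set.ncard_eq_toFinset_card, Set.ncard_univ, hNp]
        omega
      · have h5 : Nat.card P ≤ Nat.card K := by
          apply hmax P
          refine ⟨?_, hPt, ?_⟩
          · intro h
            apply hKb
            rw [h] at hKP
            exact le_bot_iff.1 hKP
          · rw [hstP]
            omega
        have h6 : K = P := AddSubgroup.eq_of_le_of_card_ge hKP h5
        rw [h6]
        exact hgP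
    have hcap : Cap (Nat.card K) u (fun i => (QuotientAddGroup.mk (f i) : G ⧸ K)) :=
      Nz_cap u f K hK2 hAE.1.2
    rw [hKc] at hq2 hbad hcap hindex
    rcases hc24 with rfl | rfl
    · have hR : R2 (G ⧸ K) := by
        apply Nz_R2 hp
        have h3 : K.index = Nat.card (G ⧸ K) := rfl
        rw [← h3]
        omega
      have h3 := Pool.Agent.SSF.PR_all u.card (G ⧸ K) ι u _ hR rfl hq5 hcap (P1_aper _ _ _ _ hap)
      rw [Pool.Agent.SDG.all_Nm1.2.2.1, P1_card _ (fun a b => QuotientAddGroup.instDecidableEqQuotientAddSubgroupOfDecidablePredMem K a b)] at h3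
      have h4 : (u.card + 1) ^ 2 ≤ 4 * ((u.card + 1) ^ 2 / 4) + 3 := by omega
      have h5 : (u.card + 1) ^ 2 = u.card * (u.card + 1) + u.card + 1 := by ring
      omega
    · have h3 := (Pool.Agent.SDG.all_main u.card).2 2 le_rfl (G ⧸ K) ι u _ rfl hq5 hcap (P1_aper _ _ _ _ hap)
      rw [P1_card _ (fun a b => QuotientAddGroup.instDecidableEqQuotientAddSubgroupOfDecidablePredMem K a b)] at h3
      have h4 := Pool.Agent.SDG.all_Nm2.2 u.card
      have h5 : u.card ^ 2 + 4 * u.card + 8 = u.card * (u.card + 1) + 3 * u.card + 8 := by ring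
      have h6 : cf (2 * 2) u.card = cf 4 u.card := rfl
      omega
  rcases hcases K hKb hKt with h | h | h | h
  · exact hsmall _ h (Or.inl rfl)
  · exact hsmall _ h (Or.inr rfl)
  · obtain ⟨i, hi, j, hj, hiK, hjK, hij⟩ := Nz_two u f K h (hi4 K h) hgen
    have h3 : 3 ≤ ((FS u f).image fun x => (QuotientAddGroup.mk x : G ⧸ K)).card := by
      have h4 : ({(0 : G ⧸ K), (QuotientAddGroup.mk (f i) : G ⧸ K), (QuotientAddGroup.mk (f j) : G ⧸ K)} :
          Finset (G ⧸ K)) ⊆ (FS u f).image fun x => (QuotientAddGroup.mk x : G ⧸ K) := by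
        intro y hy
        rw [mem_insert, mem_insert, mem_singleton] at hy
        rw [mem_image]
        rcases hy with rfl | rfl | rfl
        · exact ⟨0, zero_mem_FS _ _, rfl⟩
        · exact ⟨f i, mem_FS.2 ⟨{i}, by simpa using hi, by simp⟩, rfl⟩
        · exact ⟨f j, mem_FS.2 ⟨{j}, by simpa using hj, by simp⟩, rfl⟩
      have h5 : ({(0 : G ⧸ K), (QuotientAddGroup.mk (f i) : G ⧸ K), (QuotientAddGroup.mk (f j) : G ⧸ K)} :
          Finset (G ⧸ K)).card = 3 := by
        rw [card_eq_three]
        refine ⟨_, _, _, ?_, ?_, ?_, rfl⟩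
        · intro h6
          exact hiK ((QuotientAddGroup.eq_zero_iff _).1 h6.symm)
        · intro h6
          exact hjK ((QuotientAddGroup.eq_zero_iff _).1 h6.symm)
        · intro h6
          apply hij
          have h7 := QuotientAddGroup.eq.1 h6.symm
          rwa [neg_add_eq_sub] at h7
      exact h5 ▸ card_le_card h4
    rw [← hq1] at h3
    have h4 := Nat.mul_le_mul_left (Nat.card K) h3
    rw [hq2] at h4
    rw [h] at hindex
    omega
  · have h3 : ∃ i ∈ u, f i ∉ K := by
      by_contra h4
      push Not at h4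
      have h5 : gen u f ≤ K := by
        unfold gen
        rw [AddSubgroup.closure_le]
        rintro _ ⟨i, hi, rfl⟩
        exact h4 i hi
      rw [hgen, top_le_iff] at h5
      exact hKt h5
    obtain ⟨i, hi, hiK⟩ := h3
    have h3 : 2 ≤ ((FS u f).image fun x => (QuotientAddGroup.mk x : G ⧸ K)).card := by
      have h4 : ({(0 : G ⧸ K), (QuotientAddGroup.mk (f i) : G ⧸ K)} :
          Finset (G ⧸ K)) ⊆ (FS u f).image fun x => (QuotientAddGroup.mk x : G ⧸ K) := by
        intro y hy
        rw [mem_insert, mem_singleton] at hy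
        rw [mem_image]
        rcases hy with rfl | rfl
        · exact ⟨0, zero_mem_FS _ _, rfl⟩
        · exact ⟨f i, mem_FS.2 ⟨{i}, by simpa using hi, by simp⟩, rfl⟩
      have h5 : ({(0 : G ⧸ K), (QuotientAddGroup.mk (f i) : G ⧸ K)} :
          Finset (G ⧸ K)).card = 2 := by
        apply card_pair
        intro h6
        exact hiK ((QuotientAddGroup.eq_zero_iff _).1 h6.symm)
      exact h5 ▸ card_le_card h4
    rw [← hq1] at h3
    have h4 := Nat.mul_le_mul_left (Nat.card K) h3
    rw [hq2] at h4
    rw [h] at hindex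
    omega

end Pool.Agent.SSZ
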